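import Pool.Agent.P.MP_bdc337_an.Large

/-! The two-component system and its invariant crossing form. -/

set_option autoImplicit false

open Finset PowerSeries

namespace Pool.Agent.P.MP_bdc337_an.RR

variable {a : ℝ} {w : ℂ⟦X⟧}

theorem sys (h0 : 0 < a) (w0 : coeff 0 w = 0) {F : ℂ⟦X⟧} (hF0 : coeff 0 F = 1)
    (hF : X * d⁄dX ℂ F = (2 * C (a : ℂ) * KK a w) * F) (N : ℕ) :
    ∃ S Y : ℂ⟦X⟧, coeff 0 S = 1 ∧ coeff 0 Y = 0 ∧
      (∀ n, 1 ≤ n → coeff n S = ((a * (1 / n) : ℝ) : ℂ) *
          (coeff n (w * (BB a w 0 * S)) - coeff n (w * (BB a w 0 * Y)))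
        + ((a * (1 / (N - n : ℝ)) : ℝ) : ℂ) * coeff n (w * (BB a w 0 * S))) ∧
      (∀ n, coeff n Y = ((a * (1 / (N - n : ℝ)) : ℝ) : ℂ) * coeff n (w * (BB a w 0 * S))) ∧
      ∀ L M, 1 ≤ M → M + L = N → ∑ k ∈ range (N + 1), (pw a k : ℂ) *
        (beta w N M (L + 1) (BB a w k * S) (BB a w k * S)
          - beta w N M (L + 1) (BB a w k * Y) (BB a w k * Y)) = coeff N (KK a w * F) := by
  set K := KK a w with hK
  have K0 : coeff 0 K = 0 := coeff_zero_KK a w0
  have ha : (a : ℂ) ≠ 0 := by exact_mod_cast h0.ne'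
  obtain ⟨P, hP⟩ := exists_fix K0 (fun n => if n = 0 then 1 else 0)
    (fun n => ((a * (1 / n) : ℝ) : ℂ))
  obtain ⟨Y, hY'⟩ := exists_fix K0 (fun n => ((a * (1 / (N - n : ℝ)) : ℝ) : ℂ) * coeff n (K * P))
    (fun n => ((a * (1 / (N - n : ℝ)) : ℝ) : ℂ))
  have hY : ∀ n, coeff n Y = ((a * (1 / (N - n : ℝ)) : ℝ) : ℂ) * coeff n (K * (P + Y)) := by
    intro n
    rw [hY' n, mul_add K, map_add]
    ring
  have P0 : coeff 0 P = 1 := by
    rw [hP 0, coeff_zero_mul_left K0]
    simp
  have Y0 : coeff 0 Y = 0 := by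
    rw [hY 0, coeff_zero_mul_left K0, mul_zero]
  have hPode : X * d⁄dX ℂ P = C (a : ℂ) * (K * P) := by
    ext n
    rw [coeff_X_mul_deriv, coeff_C_mul]
    rcases n with _ | n
    · rw [coeff_zero_mul_left K0]
      simp
    · rw [hP (n + 1), if_neg (by omega)]
      have : ((n : ℂ) + 1) ≠ 0 := by exact_mod_cast Nat.succ_ne_zero n
      push_cast
      field_simp
      ring
  have hFP : F = P * P := by
    have := euler_unique (c := 2 * C (a : ℂ) * K) (D := F - P * P)
      (by rw [mul_comm, coeff_zero_mul_left K0])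
      (by rw [map_sub, hF0, coeff_zero_eq_constantCoeff_apply, map_mul,
            ← coeff_zero_eq_constantCoeff_apply, P0]; simp)
      (by
        rw [map_sub, Derivation.leibniz]
        simp only [smul_eq_mul]
        linear_combination hF - 2 * P * hPode)
    exact sub_eq_zero.1 this
  have hm : coeff N (K * F) = coeff N (K * (P + Y)) := by
    have e1 : ∀ j < N, coeff j (C (N : ℂ) * Y - X * d⁄dX ℂ Y - C (a : ℂ) * (K * (P + Y))) = 0 := by
      intro j hj
      rw [map_sub, map_sub, coeff_C_mul, coeff_C_mul, coeff_X_mul_deriv, hY j]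
      have : ((N : ℂ) - j) ≠ 0 := by
        have : ((N : ℝ) - j) ≠ 0 := by
          have : (j : ℝ) < N := by exact_mod_cast hj
          linarith
        exact_mod_cast this
      push_cast
      field_simp
      ring
    have e2 := coeff_mul_top (p := P) e1
    have e3 : P * (C (N : ℂ) * Y - X * d⁄dX ℂ Y - C (a : ℂ) * (K * (P + Y)))
        = C (N : ℂ) * (Y * P) - X * d⁄dX ℂ (Y * P) - C (a : ℂ) * (K * F) := by
      rw [hFP, Derivation.leibniz]
      simp only [smul_eq_mul]
      linear_combination Y * hPode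
    rw [e3, P0] at e2
    simp only [map_sub, coeff_C_mul, coeff_X_mul_deriv] at e2
    apply mul_left_cancel₀ ha
    linear_combination -e2
  set S := P + Y with hS
  have S0 : coeff 0 S = 1 := by rw [hS, map_add, P0, Y0, add_zero]
  have hKZ : ∀ Z : ℂ⟦X⟧, w * (BB a w 0 * Z) = K * Z := by
    intro Z
    rw [hK, KK, mul_assoc]
  have hSn : ∀ n, 1 ≤ n → coeff n S = ((a * (1 / n) : ℝ) : ℂ) * (coeff n (K * S) - coeff n (K * Y))
      + ((a * (1 / (N - n : ℝ)) : ℝ) : ℂ) * coeff n (K * S) := by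
    intro n hn
    have : coeff n (K * S) - coeff n (K * Y) = coeff n (K * P) := by
      rw [hS, mul_add, map_add]
      ring
    rw [this]
    conv_lhs => rw [hS, map_add, hP n, hY n, if_neg (by omega)]
    ring
  let G : ℕ → ℕ → ℂ := fun M L => ∑ k ∈ range (N + 1), (pw a k : ℂ) *
    (beta w N M L (BB a w k * S) (BB a w k * S) - beta w N M L (BB a w k * Y) (BB a w k * Y))
  have key : ∀ (Z : ℂ⟦X⟧) (M L : ℕ), M + L = N →
      ∑ k ∈ range (N + 1), (pw a k : ℂ) * (beta w N (M + 1) L (BB a w k * Z) (BB a w k * Z)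
        - beta w N M (L + 1) (BB a w k * Z) (BB a w k * Z))
      = coeff M Z * coeff L (K * Z) - coeff L Z * coeff M (K * Z) := by
    intro Z M L hML
    have hsym := sym_sum h0 (fun k => coeff M (w * (BB a w k * Z)))
      (fun k => coeff L (w * (BB a w k * Z))) N
    simp only [supp1 a w0 Z (by omega : M ≤ N + 1), supp1 a w0 Z (by omega : L ≤ N + 1),
      zero_mul, mul_zero, sub_self] at hsym
    have : ∀ k ∈ range (N + 1), (pw a k : ℂ) * (beta w N (M + 1) L (BB a w k * Z) (BB a w k * Z)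
        - beta w N M (L + 1) (BB a w k * Z) (BB a w k * Z))
        = (if k = 0 then coeff M Z * coeff L (K * Z) - coeff L Z * coeff M (K * Z) else 0)
          + (pw a k : ℂ) * (Tr a (fun k => coeff M (w * (BB a w k * Z))) k
              * coeff L (w * (BB a w k * Z))
            - coeff M (w * (BB a w k * Z)) * Tr a (fun k => coeff L (w * (BB a w k * Z))) k) := by
      intro k _
      rw [beta_step w0 hML, coeff_BB_mul a w0 Z M k, coeff_BB_mul a w0 Z L k]
      by_cases hk : k = 0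
      · subst hk
        simp only [if_true, pw_zero, hKZ]
        push_cast
        ring
      · simp only [if_neg hk]
        ring
    rw [Finset.sum_congr rfl this, Finset.sum_add_distrib, hsym, Finset.sum_range_succ']
    simp
  have Gstep : ∀ M L, 1 ≤ M → 1 ≤ L → M + L = N → G (M + 1) L = G M (L + 1) := by
    intro M L hM hL hML
    have k1 := key S M L hML
    have k2 := key Y M L hML
    have hNM : (N : ℝ) - M = L := by rw [← hML]; push_cast; ring
    have hNL : (N : ℝ) - L = M := by rw [← hML]; push_cast; ring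
    rw [hSn M hM, hSn L hL, hNM, hNL] at k1
    rw [hY M, hY L, hNM, hNL] at k2
    rw [← sub_eq_zero]
    simp only [G, mul_sub, Finset.sum_sub_distrib] at k1 k2 ⊢
    linear_combination k1 - k2
  have GN : G N 1 = coeff N (K * S) := by
    simp only [G, beta_last w0, coeff_zero_BB_mul a w0, S0, Y0]
    rw [Finset.sum_range_succ']
    simp [pw_zero, hKZ]
  have Gall : ∀ L M, 1 ≤ M → M + L = N → G M (L + 1) = coeff N (K * S) := by
    intro L
    induction L with
    | zero =>
      intro M _ h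
      rw [← GN, ← h]
      rfl
    | succ L ih =>
      intro M hM h
      rw [← Gstep M (L + 1) hM (by omega) h]
      exact ih (M + 1) (by omega) (by omega)
  refine ⟨S, Y, S0, Y0, fun n hn => ?_, fun n => ?_, fun L M hM h => ?_⟩
  · rw [hKZ, hKZ]
    exact hSn n hn
  · rw [hKZ]
    exact hY n
  · rw [hm]
    exact Gall L M hM h

lemma Au_pos' (h1 : a < 1) (k : ℕ) : 0 < Au a k := by
  unfold Au
  have : (0 : ℝ) ≤ k := Nat.cast_nonneg k
  apply div_pos <;> linarith

lemma pw_pos' (h0 : 0 < a) (h1 : a < 1) (k : ℕ) : 0 < pw a k := by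
  induction k with
  | zero => simp [pw]
  | succ k ih =>
    unfold pw
    have := Au_pos' h1 k
    have := Cd_pos h0 (k + 1)
    positivity

lemma clunie (hw : Contr w) (m : ℕ) (z : ℂ⟦X⟧) : nsq (m + 1) (w * z) ≤ nsq m z := by
  have w0 := hw.1
  rcases Nat.eq_zero_or_pos m with rfl | hm
  · simp [nsq, coeff_zero_mul_left w0]
  have h := mm hw (N := m) (M := m) (L := 1) rfl hm le_rfl z
    (C ((starRingEnd ℂ) (coeff m (w * z))))
  rw [beta_last w0, coeff_zero_C, norm_mul, Complex.norm_conj] at h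
  simp only [Dd, nsq, range_one, sum_singleton, coeff_zero_mul_left w0, coeff_zero_C,
    Complex.norm_conj, norm_zero] at h
  simp only [nsq, Finset.sum_range_succ]
  nlinarith

lemma abel (A B t : ℕ → ℝ) (h : ∀ m, ∑ j ∈ range (m + 1), B j ≤ ∑ j ∈ range m, A j)
    (ht : ∀ m, t (m + 1) ≤ t m) (n : ℕ) :
    t n * (∑ j ∈ range n, A j - ∑ j ∈ range n, B j)
      ≤ ∑ j ∈ range n, (t (j + 1) * A j - t j * B j) := by
  induction n with
  | zero => simp
  | succ n ih =>
    have h1 := h n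
    have h2 := ht n
    simp only [Finset.sum_range_succ] at h1 ⊢
    nlinarith [mul_nonneg (sub_nonneg.2 h1) (sub_nonneg.2 h2)]

lemma beta_lin (N M L : ℕ) (x y : ℂ⟦X⟧) (p q : ℂ) :
    beta w N M L (x - C p * y) (x - C q * y) = beta w N M L x x - q * beta w N M L x y
      - p * beta w N M L y x + p * q * beta w N M L y y := by
  simp only [beta, map_sub, coeff_C_mul, Finset.mul_sum, ← Finset.sum_sub_distrib,
    ← Finset.sum_add_distrib]
  refine Finset.sum_congr rfl fun j _ => Finset.sum_congr rfl fun l _ => ?_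
  ring

lemma rot_norm {p s : ℝ} (hp : 0 < p) (x y : ℂ) :
    p * ‖x - ((s / p : ℝ) : ℂ) * y‖ ^ 2
      = (1 - s * s / p) * (p * ‖x‖ ^ 2 - ‖y‖ ^ 2) + ‖y - (s : ℂ) * x‖ ^ 2 := by
  simp only [Complex.sq_norm, Complex.normSq_apply, Complex.sub_re, Complex.sub_im,
    Complex.re_ofReal_mul, Complex.im_ofReal_mul]
  field_simp
  ring

lemma Dd_eq (n : ℕ) (x : ℂ⟦X⟧) :
    Dd w n x = ∑ j ∈ range n, (‖coeff j x‖ ^ 2 - ‖coeff j (w * x)‖ ^ 2) := by
  simp only [Dd, nsq, Finset.sum_sub_distrib]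

lemma rot_Dd {p s : ℝ} (hp : 0 < p) (n : ℕ) (x y : ℂ⟦X⟧) :
    p * Dd w n (x - C ((s / p : ℝ) : ℂ) * y)
      = (1 - s * s / p) * (p * Dd w n x - Dd w n y) + Dd w n (y - C (s : ℂ) * x) := by
  simp only [Dd_eq, Finset.mul_sum, ← Finset.sum_sub_distrib, ← Finset.sum_add_distrib]
  refine Finset.sum_congr rfl fun j _ => ?_
  simp only [mul_sub w, mul_left_comm w (C _), map_sub, coeff_C_mul]
  have e1 := rot_norm (s := s) hp (coeff j x) (coeff j y)
  have e2 := rot_norm (s := s) hp (coeff j (w * x)) (coeff j (w * y))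
  linear_combination e1 - e2

/-- hyperbolic rotation of a pair of signals -/
lemma rot (hw : Contr w) {N M L : ℕ} (hML : M + L = N + 1) (hM : 1 ≤ M) (hL : 1 ≤ L) {p s : ℝ}
    (hp : 0 < p) (hs : s * s / p < 1) (x y : ℂ⟦X⟧) :
    2 * ‖(p : ℂ) * beta w N M L x x - beta w N M L y y‖
      ≤ (p * Dd w M x - Dd w M y + 2 / (1 - s * s / p) * Dd w M (y - C (s : ℂ) * x))
        + (p * Dd w L x - Dd w L y + 2 / (1 - s * s / p) * Dd w L (y - C (s : ℂ) * x)) := by
  have hd : 0 < 1 - s * s / p := by linarith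
  have m1 := mm hw hML hM hL (x - C ((s / p : ℝ) : ℂ) * y) (x - C ((s / p : ℝ) : ℂ) * y)
  have m2 := mm hw hML hM hL (y - C (s : ℂ) * x) (y - C (s : ℂ) * x)
  have e : ((1 - s * s / p : ℝ) : ℂ) * ((p : ℂ) * beta w N M L x x - beta w N M L y y)
      = (p : ℂ) * beta w N M L (x - C ((s / p : ℝ) : ℂ) * y) (x - C ((s / p : ℝ) : ℂ) * y)
        - beta w N M L (y - C (s : ℂ) * x) (y - C (s : ℂ) * x) := by
    rw [beta_lin, beta_lin]
    have : (p : ℂ) ≠ 0 := by exact_mod_cast hp.ne'
    push_cast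
    field_simp
    ring
  have n1 := norm_sub_le
    ((p : ℂ) * beta w N M L (x - C ((s / p : ℝ) : ℂ) * y) (x - C ((s / p : ℝ) : ℂ) * y))
    (beta w N M L (y - C (s : ℂ) * x) (y - C (s : ℂ) * x))
  rw [← e, norm_mul, norm_mul, Complex.norm_real, Complex.norm_real, Real.norm_of_nonneg hd.le,
    Real.norm_of_nonneg hp.le] at n1
  have r1 := rot_Dd (w := w) (s := s) hp M x y
  have r2 := rot_Dd (w := w) (s := s) hp L x y
  have m3 := mul_le_mul_of_nonneg_left m1 hp.le
  refine le_of_mul_le_mul_left ?_ hd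
  have e2 : (1 - s * s / p) * (2 / (1 - s * s / p)) = 2 := mul_div_cancel₀ _ hd.ne'
  generalize 2 / (1 - s * s / p) = om at *
  generalize 1 - s * s / p = d at *
  have e3 : d * ((p * Dd w M x - Dd w M y + om * Dd w M (y - C (s : ℂ) * x))
        + (p * Dd w L x - Dd w L y + om * Dd w L (y - C (s : ℂ) * x)))
      = d * (p * Dd w M x - Dd w M y) + d * (p * Dd w L x - Dd w L y)
        + 2 * Dd w M (y - C (s : ℂ) * x) + 2 * Dd w L (y - C (s : ℂ) * x) := by
    linear_combination (Dd w M (y - C (s : ℂ) * x) + Dd w L (y - C (s : ℂ) * x)) * e2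
  rw [e3]
  linarith

end Pool.Agent.P.MP_bdc337_an.RR
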