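import Pool.Agent.P.MP_bdc337_an.RR.A

/-! The energy with a decreasing weight on the tail. -/

set_option autoImplicit false

open Finset PowerSeries

namespace Pool.Agent.P.MP_bdc337_an.RR

variable {a : ℝ} {w : ℂ⟦X⟧}

/-- real transition operator -/
noncomputable def TR (a : ℝ) (f : ℕ → ℝ) (k : ℕ) : ℝ := Au a k * f (k + 1) + Cd a k * f (k - 1)

/-- the energy, real form -/
noncomputable def PiR (a : ℝ) (T : ℕ) (s o σ : ℝ) (f g : ℕ → ℝ) : ℝ :=
  f 0 ^ 2 + pw a 1 * f 1 ^ 2 - g 0 ^ 2 + o * (g 0 - s * f 1) ^ 2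
    + σ * ∑ k ∈ range T, pw a (k + 2) * f (k + 2) ^ 2
    + ∑ k ∈ range (T + 1), pw a (k + 1) * g (k + 1) ^ 2

/-- the energy, complex form -/
noncomputable def PiC (a : ℝ) (T : ℕ) (s o σ : ℝ) (f g : ℕ → ℂ) : ℝ :=
  ‖f 0‖ ^ 2 + pw a 1 * ‖f 1‖ ^ 2 - ‖g 0‖ ^ 2 + o * ‖g 0 - (s : ℂ) * f 1‖ ^ 2
    + σ * ∑ k ∈ range T, pw a (k + 2) * ‖f (k + 2)‖ ^ 2
    + ∑ k ∈ range (T + 1), pw a (k + 1) * ‖g (k + 1)‖ ^ 2

lemma PiC_eq (a : ℝ) (T : ℕ) (s o σ : ℝ) (f g : ℕ → ℂ) :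
    PiC a T s o σ f g = PiR a T s o σ (fun k => (f k).re) (fun k => (g k).re)
      + PiR a T s o σ (fun k => (f k).im) (fun k => (g k).im) := by
  have e : ∀ z : ℂ, ‖z‖ ^ 2 = z.re ^ 2 + z.im ^ 2 := fun z => by
    rw [Complex.sq_norm, Complex.normSq_apply]
    ring
  simp only [PiC, PiR, e, mul_add, Finset.sum_add_distrib, Complex.sub_re, Complex.sub_im,
    Complex.re_ofReal_mul, Complex.im_ofReal_mul]
  ring

/-- one step of the system does not increase the energy -/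
def Step (a : ℝ) (T n : ℕ) (s o σ τ : ℝ) : Prop :=
  ∀ f g : ℕ → ℝ, (∀ k, n ≤ k → f k = 0) → (∀ k, n ≤ k + 1 → g k = 0) → (n = 2 → g 0 = s * f 1) →
    PiR a T s o τ
      (fun k => (if k = 0 then a * (1 / n) * (f 0 - g 0) + a * (1 / ((T + 1 : ℕ) - n : ℝ)) * f 0
        else 0) + TR a f k)
      (fun k => (if k = 0 then a * (1 / ((T + 1 : ℕ) - n : ℝ)) * f 0 else 0) + TR a g k)
      ≤ PiR a T s o σ f g

lemma Step.complex {T n : ℕ} {s o σ τ : ℝ} (h : Step a T n s o σ τ) (f g : ℕ → ℂ)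
    (hf : ∀ k, n ≤ k → f k = 0) (hg : ∀ k, n ≤ k + 1 → g k = 0) (h2 : n = 2 → g 0 = s * f 1) :
    PiC a T s o τ
      (fun k => (if k = 0 then ((a * (1 / n) : ℝ) : ℂ) * (f 0 - g 0)
        + ((a * (1 / ((T + 1 : ℕ) - n : ℝ)) : ℝ) : ℂ) * f 0 else 0) + Tr a f k)
      (fun k => (if k = 0 then ((a * (1 / ((T + 1 : ℕ) - n : ℝ)) : ℝ) : ℂ) * f 0 else 0) + Tr a g k)
      ≤ PiC a T s o σ f g := by
  have h3 := h (fun k => (f k).re) (fun k => (g k).re) (fun k hk => by simp [hf k hk])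
    (fun k hk => by simp [hg k hk]) (fun e => by simp [h2 e])
  have h4 := h (fun k => (f k).im) (fun k => (g k).im) (fun k hk => by simp [hf k hk])
    (fun k hk => by simp [hg k hk]) (fun e => by simp [h2 e])
  rw [PiC_eq, PiC_eq]
  simp only [Complex.add_re, Complex.add_im, apply_ite Complex.re, apply_ite Complex.im, Tr,
    Complex.re_ofReal_mul, Complex.im_ofReal_mul, Complex.sub_re, Complex.sub_im, Complex.zero_re,
    Complex.zero_im]
  simp only [TR] at h3 h4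
  exact add_le_add h3 h4

lemma shear_zero (w0 : coeff 0 w = 0) {S Y : ℂ⟦X⟧} (Y0 : coeff 0 Y = 0) {s y : ℝ}
    (hy : s * Cd a 1 = y) (Y1 : coeff 1 Y = (y : ℂ) * coeff 1 (w * (BB a w 0 * S))) :
    coeff 0 (BB a w 0 * Y - C (s : ℂ) * (BB a w 1 * S)) = 0 ∧
      coeff 1 (BB a w 0 * Y - C (s : ℂ) * (BB a w 1 * S)) = 0 := by
  constructor
  · simp [map_sub, coeff_C_mul, coeff_zero_BB_mul a w0, Y0]
  · rw [map_sub, coeff_C_mul, coeff_BB_mul a w0 Y 1 0, coeff_BB_mul a w0 S 1 1]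
    simp only [Tr, if_true, supp2 a w0 Y0 (by omega : 1 ≤ 0 + 1),
      supp2 a w0 Y0 (by omega : 1 ≤ 0 + 1 + 1), supp1 a w0 S (by omega : 1 ≤ 1 + 1), Y1,
      Nat.zero_sub, Nat.sub_self, one_ne_zero, if_false, ← hy]
    push_cast
    ring

lemma coeff_two_zero (w0 : coeff 0 w = 0) {v : ℂ⟦X⟧} (h0 : coeff 0 v = 0) (h1 : coeff 1 v = 0) :
    coeff 2 (w * v) = 0 := by
  rw [coeff_conv w0 _ (le_refl 2)]
  simp [Finset.sum_range_succ, h0, h1]

theorem chain (h0 : 0 < a) (h1 : a < 1) (hw : Contr w) {F : ℂ⟦X⟧} (hF0 : coeff 0 F = 1)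
    (hF : X * d⁄dX ℂ F = (2 * C (a : ℂ) * KK a w) * F) {T : ℕ} (hT : 1 ≤ T) {s : ℝ}
    (hs : s * s / pw a 1 < 1) (hy : s * Cd a 1 = a * (1 / ((T + 1 : ℕ) - (1 : ℕ) : ℝ)))
    (σ : ℕ → ℝ) (hσ : ∀ m, σ (m + 1) ≤ σ m) (hσ1 : ∀ m, 1 ≤ σ m)
    (hstep : ∀ n, 1 ≤ n → 2 * n ≤ T + 1 →
      Step a T n s (2 / (1 - s * s / pw a 1)) (σ n) (σ (n + 1))) :
    ‖coeff (T + 1) (KK a w * F)‖ ≤ 1 := by
  have w0 := hw.1
  obtain ⟨S, Y, S0, Y0, hS, hY, hG⟩ := sys h0 w0 hF0 hF (T + 1)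
  set o := 2 / (1 - s * s / pw a 1) with ho
  let P : ℝ → ℕ → ℝ := fun t j =>
    PiC a T s o t (fun k => coeff j (BB a w k * S)) (fun k => coeff j (BB a w k * Y))
  let Q : ℝ → ℕ → ℝ := fun t j =>
    PiC a T s o t (fun k => coeff j (w * (BB a w k * S))) (fun k => coeff j (w * (BB a w k * Y)))
  have hz := shear_zero (a := a) w0 Y0 hy (hY 1)
  have st : ∀ n, 1 ≤ n → 2 * n ≤ T + 1 → P (σ (n + 1)) n ≤ Q (σ n) n := by
    intro n hn1 hn
    have := (hstep n hn1 hn).complex (fun k => coeff n (w * (BB a w k * S)))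
      (fun k => coeff n (w * (BB a w k * Y))) (fun k hk => supp1 a w0 S hk)
      (fun k hk => supp2 a w0 Y0 hk) (fun e => by
        have := coeff_two_zero w0 hz.1 hz.2
        rw [mul_sub, mul_left_comm w (C _), map_sub, coeff_C_mul, sub_eq_zero] at this
        rw [e]
        exact this)
    rw [← hS n hn1, ← hY n] at this
    simp only [← coeff_BB_mul a w0] at this
    exact this
  have Ele : ∀ n, 1 ≤ n → 2 * n ≤ T + 3 →
      ∑ j ∈ range n, (P (σ (j + 1)) j - Q (σ j) j) ≤ 1 := by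
    intro n hn
    induction n, hn using Nat.le_induction with
    | base =>
      intro _
      simp [P, Q, PiC, coeff_zero_mul_left w0, coeff_zero_BB_mul a w0, S0, Y0]
    | succ n hn ih =>
      intro h
      rw [Finset.sum_range_succ]
      linarith [ih (by omega), st n hn (by omega)]
  have BE : ∀ n, ∑ j ∈ range n, (P 1 j - Q 1 j) ≤ ∑ j ∈ range n, (P (σ (j + 1)) j - Q (σ j) j) := by
    intro n
    have hc : ∀ m, ∑ j ∈ range (m + 1), ∑ k ∈ range T,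
          pw a (k + 2) * ‖coeff j (w * (BB a w (k + 2) * S))‖ ^ 2
        ≤ ∑ j ∈ range m, ∑ k ∈ range T, pw a (k + 2) * ‖coeff j (BB a w (k + 2) * S)‖ ^ 2 := by
      intro m
      rw [Finset.sum_comm, Finset.sum_comm (s := range m)]
      refine Finset.sum_le_sum fun k _ => ?_
      rw [← Finset.mul_sum, ← Finset.mul_sum]
      exact mul_le_mul_of_nonneg_left (clunie hw m _) (pw_pos' h0 h1 _).le
    have h2 := abel _ _ (fun m => σ m - 1) hc (fun m => by linarith [hσ m]) n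
    have h3 := hc n
    rw [Finset.sum_range_succ] at h3
    have h4 : 0 ≤ ∑ k ∈ range T, pw a (k + 2) * ‖coeff n (w * (BB a w (k + 2) * S))‖ ^ 2 :=
      Finset.sum_nonneg fun k _ => mul_nonneg (pw_pos' h0 h1 _).le (sq_nonneg _)
    have h5 := le_trans (mul_nonneg (sub_nonneg.2 (hσ1 n)) (by linarith)) h2
    rw [← sub_nonneg, ← Finset.sum_sub_distrib]
    refine le_of_le_of_eq h5 (Finset.sum_congr rfl fun j _ => ?_)
    simp only [P, Q, PiC]
    ring
  have BD : ∀ n, ∑ j ∈ range n, (P 1 j - Q 1 j) = Dd w n (BB a w 0 * S)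
      + (pw a 1 * Dd w n (BB a w 1 * S) - Dd w n (BB a w 0 * Y)
        + o * Dd w n (BB a w 0 * Y - C (s : ℂ) * (BB a w 1 * S)))
      + ∑ k ∈ range T, pw a (k + 2) * Dd w n (BB a w (k + 2) * S)
      + ∑ k ∈ range (T + 1), pw a (k + 1) * Dd w n (BB a w (k + 1) * Y) := by
    intro n
    induction n with
    | zero => simp [Dd, nsq]
    | succ n ih =>
      rw [Finset.sum_range_succ, ih]
      simp only [Dd_succ, P, Q, PiC, mul_add, mul_sub, Finset.sum_add_distrib,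
        Finset.sum_sub_distrib, mul_left_comm w (C _), map_sub, coeff_C_mul]
      ring
  obtain ⟨M, L, hM, hML, hM2, hL2⟩ : ∃ M L, 1 ≤ M ∧ M + L = T + 1 ∧ 2 * M ≤ T + 3 ∧
      2 * (L + 1) ≤ T + 3 := ⟨(T + 2) / 2, (T + 1) / 2, by omega, by omega, by omega, by omega⟩
  have b1 := (BE M).trans (Ele M hM hM2)
  have b2 := (BE (L + 1)).trans (Ele (L + 1) (by omega) hL2)
  rw [BD] at b1 b2
  rw [← hG L M hM hML]
  have hML' : M + (L + 1) = T + 1 + 1 := by omega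
  have e : ∑ k ∈ range (T + 1 + 1), (pw a k : ℂ) *
        (beta w (T + 1) M (L + 1) (BB a w k * S) (BB a w k * S)
          - beta w (T + 1) M (L + 1) (BB a w k * Y) (BB a w k * Y))
      = beta w (T + 1) M (L + 1) (BB a w 0 * S) (BB a w 0 * S)
        + ((pw a 1 : ℂ) * beta w (T + 1) M (L + 1) (BB a w 1 * S) (BB a w 1 * S)
          - beta w (T + 1) M (L + 1) (BB a w 0 * Y) (BB a w 0 * Y))
        + ∑ k ∈ range T, (pw a (k + 2) : ℂ) *
          beta w (T + 1) M (L + 1) (BB a w (k + 2) * S) (BB a w (k + 2) * S)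
        - ∑ k ∈ range (T + 1), (pw a (k + 1) : ℂ) *
          beta w (T + 1) M (L + 1) (BB a w (k + 1) * Y) (BB a w (k + 1) * Y) := by
    simp only [mul_sub, Finset.sum_sub_distrib]
    rw [Finset.sum_range_succ' _ (T + 1), Finset.sum_range_succ' _ T,
      Finset.sum_range_succ' (fun k => (pw a k : ℂ) *
        beta w (T + 1) M (L + 1) (BB a w k * Y) (BB a w k * Y)) (T + 1)]
    simp only [pw_zero, zero_add]
    push_cast
    ring
  have sm : ∀ (n : ℕ) (c : ℕ → ℕ) (z : ℕ → ℂ⟦X⟧),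
      2 * ‖∑ k ∈ range n, (pw a (c k) : ℂ) * beta w (T + 1) M (L + 1) (z k) (z k)‖
        ≤ ∑ k ∈ range n, pw a (c k) * Dd w M (z k)
          + ∑ k ∈ range n, pw a (c k) * Dd w (L + 1) (z k) := by
    intro n c z
    rw [← Finset.sum_add_distrib]
    refine le_trans (mul_le_mul_of_nonneg_left (norm_sum_le _ _) (by norm_num)) ?_
    rw [Finset.mul_sum]
    refine Finset.sum_le_sum fun k _ => ?_
    have hp := pw_pos' h0 h1 (c k)
    have := mm hw hML' hM (by omega) (z k) (z k)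
    rw [norm_mul, Complex.norm_real, Real.norm_of_nonneg hp.le]
    nlinarith
  have m0 := mm hw hML' hM (by omega) (BB a w 0 * S) (BB a w 0 * S)
  have m1 := rot hw hML' hM (by omega) (pw_pos' h0 h1 1) hs (BB a w 1 * S) (BB a w 0 * Y)
  have m2 := sm T (fun k => k + 2) (fun k => BB a w (k + 2) * S)
  have m3 := sm (T + 1) (fun k => k + 1) (fun k => BB a w (k + 1) * Y)
  rw [e]
  rw [← ho] at m1
  have n1 := fun x y z u : ℂ => (norm_sub_le (x + y + z) u).trans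
    (add_le_add_left (norm_add₃_le (a := x) (b := y) (c := z)) _)
  refine (n1 _ _ _ _).trans ?_
  linarith

end Pool.Agent.P.MP_bdc337_an.RR
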