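import Pool.Agent.P.MP_bdc337_an.RR.Chk

/-! Soundness of the positivity checkers. -/

set_option autoImplicit false

namespace Pool.Agent.P.MP_bdc337_an.RR

lemma psd2_sound {a b c : ℚ} (h : psd2 a b c = true) (x y : ℝ) :
    0 ≤ (a : ℝ) * x ^ 2 + 2 * b * x * y + c * y ^ 2 := by
  simp only [psd2, Bool.and_eq_true, decide_eq_true_eq] at h
  have h1 : (0 : ℝ) < a := by exact_mod_cast h.1
  have h2 : (b : ℝ) * b ≤ a * c := by exact_mod_cast h.2
  have : (a : ℝ) * x ^ 2 + 2 * b * x * y + c * y ^ 2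
      = ((a * x + b * y) ^ 2 + (a * c - b * b) * y ^ 2) / a := by
    field_simp
    ring
  rw [this]
  have : (0 : ℝ) ≤ a * c - b * b := by linarith
  positivity

lemma psd3_sound {a b c d e f : ℚ} (h : psd3 a b c d e f = true) (x y z : ℝ) :
    0 ≤ (a : ℝ) * x ^ 2 + 2 * b * x * y + 2 * c * x * z + d * y ^ 2 + 2 * e * y * z + f * z ^ 2 := by
  simp only [psd3, Bool.and_eq_true, decide_eq_true_eq] at h
  have h1 : (0 : ℝ) < a := by exact_mod_cast h.1
  have h2 := psd2_sound h.2 y z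
  push_cast at h2
  have h3 : 0 ≤ (a * x + b * y + c * z) ^ 2 / (a : ℝ) := by positivity
  refine le_of_le_of_eq (add_nonneg h2 h3) ?_
  field_simp
  ring

lemma psd4_sound {a b c d e f g h i j : ℚ} (hh : psd4 a b c d e f g h i j = true) (x y z u : ℝ) :
    0 ≤ (a : ℝ) * x ^ 2 + 2 * b * x * y + 2 * c * x * z + 2 * d * x * u + e * y ^ 2 + 2 * f * y * z
      + 2 * g * y * u + h * z ^ 2 + 2 * i * z * u + j * u ^ 2 := by
  simp only [psd4, Bool.and_eq_true, decide_eq_true_eq] at hh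
  have h1 : (0 : ℝ) < a := by exact_mod_cast hh.1
  have h2 := psd3_sound hh.2 y z u
  push_cast at h2
  have h3 : 0 ≤ (a * x + b * y + c * z + d * u) ^ 2 / (a : ℝ) := by positivity
  refine le_of_le_of_eq (add_nonneg h2 h3) ?_
  field_simp
  ring

lemma psd5_sound {a b c d e f g h i j k l m n o : ℚ}
    (hh : psd5 a b c d e f g h i j k l m n o = true) (x y z u v : ℝ) :
    0 ≤ (a : ℝ) * x ^ 2 + 2 * b * x * y + 2 * c * x * z + 2 * d * x * u + 2 * e * x * v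
      + f * y ^ 2 + 2 * g * y * z + 2 * h * y * u + 2 * i * y * v + j * z ^ 2 + 2 * k * z * u
      + 2 * l * z * v + m * u ^ 2 + 2 * n * u * v + o * v ^ 2 := by
  simp only [psd5, Bool.and_eq_true, decide_eq_true_eq] at hh
  have h1 : (0 : ℝ) < a := by exact_mod_cast hh.1
  have h2 := psd4_sound hh.2 y z u v
  push_cast at h2
  have h3 : 0 ≤ (a * x + b * y + c * z + d * u + e * v) ^ 2 / (a : ℝ) := by positivity
  refine le_of_le_of_eq (add_nonneg h2 h3) ?_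
  field_simp
  ring

/-- the head form in scaled variables -/
noncomputable def headX (r c d y s h1 h2 k0 k1 X0 X1 X2 Y0 Y1 : ℝ) : ℝ :=
  X0 ^ 2 + (1 - r) / (3 * r) * X1 ^ 2 - Y0 ^ 2
    + 2 / (1 - y * y / ((1 - r) / (3 * r))) * (Y0 - y * X1) ^ 2
    + (s - h2) * (5 * (1 - r) / (4 - r)) * X2 ^ 2 - h1 * ((1 - r) / (3 * r)) * X1 ^ 2
    + (1 - k1) / ((1 - r) / (3 * r)) * Y1 ^ 2 - k0 * Y0 ^ 2
    - (r * ((1 + c + d) * X0 - c * Y0 + (1 - r) / (3 * r) * X1) ^ 2 + (1 - r) / 3 * (X0 + X2) ^ 2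
      - r * (d * X0 + Y0 + Y1) ^ 2
      + 2 / (1 - y * y / ((1 - r) / (3 * r))) * (r * ((d - y) * X0 + Y0 + Y1 - y * X2) ^ 2))

lemma headq_sound {r c d y s h1 h2 k0 k1 : ℚ} (h : headq r c d y s h1 h2 k0 k1 = true)
    (X0 X1 X2 Y0 Y1 : ℝ) : 0 ≤ headX r c d y s h1 h2 k0 k1 X0 X1 X2 Y0 Y1 := by
  have := psd5_sound h X0 X1 X2 Y0 Y1
  push_cast at this
  refine le_of_le_of_eq this ?_
  unfold headX
  generalize (2 : ℝ) / (1 - y * y / ((1 - r) / (3 * r))) = om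
  generalize (5 : ℝ) * (1 - r) / (4 - r) = p2
  generalize ((1 : ℝ) - k1) / ((1 - r) / (3 * r)) = p3
  generalize ((1 : ℝ) - r) / (3 * r) = p
  ring

lemma twoq_sound {r d y t : ℚ} (h : twoq r d y t = true) (X0 X1 : ℝ) :
    0 ≤ headX r (1 / 2) d y 0 (t * ((4 - r) / 15)) 0 ((1 - r) / 3) 0 X0 X1 0 (y * X1) 0 := by
  have := psd2_sound h X0 X1
  push_cast at this
  refine le_of_le_of_eq this ?_
  unfold headX
  generalize (2 : ℝ) / (1 - y * y / ((1 - r) / (3 * r))) = om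
  generalize ((1 : ℝ) - r) / (3 * r) = p
  ring

end Pool.Agent.P.MP_bdc337_an.RR
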