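import Pool.Agent.P.MP_bdc337_an.RR.B
import Pool.Agent.P.MP_bdc337_an.RR.Psd

/-! Reduction of a step to five variables. -/

set_option autoImplicit false

open Finset

namespace Pool.Agent.P.MP_bdc337_an.RR

variable {a : ℝ}

lemma Au_one (a : ℝ) : Au a 1 = (2 - a) / 3 := by unfold Au; push_cast; ring
lemma Cd_one (a : ℝ) : Cd a 1 = (1 + a) / 3 := by unfold Cd; push_cast; ring
lemma Cd_two (a : ℝ) : Cd a 2 = (2 + a) / 5 := by unfold Cd; push_cast; ring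

lemma pw_one (h0 : 0 < a) : pw a 1 = 3 * (1 - a) / (1 + a) := by
  rw [pw, pw_zero, Au_zero, zero_add, Cd_one]
  field_simp

lemma pw_two (h0 : 0 < a) : pw a 2 = 5 * (1 - a) * (2 - a) / ((1 + a) * (2 + a)) := by
  rw [pw, pw_one h0, Au_one, Cd_two]
  field_simp

lemma step_one (h0 : 0 < a) {T : ℕ} (hT : 1 ≤ T) {s : ℝ} (o σ τ : ℝ)
    (hy : s * Cd a 1 = a * (1 / ((T + 1 : ℕ) - (1 : ℕ) : ℝ)))
    (ha : (11 * (T : ℝ) + 12) * a ^ 2 ≤ 2 * T) : Step a T 1 s o σ τ := by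
  intro f g hf hg _
  have g0 : ∀ k, g k = 0 := fun k => hg k (by omega)
  have f1 : ∀ k, f (k + 1) = 0 := fun k => hf _ (by omega)
  have hT' : (1 : ℝ) ≤ T := by exact_mod_cast hT
  have e : ((T + 1 : ℕ) : ℝ) - (1 : ℕ) = T := by push_cast; ring
  rw [e] at hy
  rw [e]
  simp only [PiR, TR, g0, f1, Nat.add_eq_zero_iff, one_ne_zero, and_false, if_false,
    if_true, OfNat.ofNat_ne_zero, Nat.add_one_sub_one, Nat.zero_sub, Nat.sub_self, Cd_zero,
    show ∀ k, k + 2 - 1 = k + 1 from fun k => rfl, mul_zero, add_zero, zero_add, sub_zero,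
    Nat.cast_one, ne_eq, not_false_eq_true, zero_pow, Finset.sum_const_zero]
  have e2 : a * (1 / T) * f 0 - s * (Cd a 1 * f 0) = 0 := by rw [← hy]; ring
  rw [e2, pw_one h0, Cd_one]
  have e3 : f 0 ^ 2 - ((a * (1 / 1) * f 0 + a * (1 / T) * f 0 + a * f 0) ^ 2
      + 3 * (1 - a) / (1 + a) * ((1 + a) / 3 * f 0) ^ 2 - (a * (1 / T) * f 0) ^ 2 + o * 0 ^ 2)
      = (2 * T - (11 * (T : ℝ) + 12) * a ^ 2) / (3 * T) * f 0 ^ 2 := by
    field_simp
    ring
  have : 0 ≤ (2 * T - (11 * (T : ℝ) + 12) * a ^ 2) / (3 * T) * f 0 ^ 2 :=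
    mul_nonneg (div_nonneg (by linarith) (by linarith)) (sq_nonneg _)
  linarith

/-- one term of the tail -/
noncomputable def term (a σ τ : ℝ) (f : ℕ → ℝ) (k : ℕ) : ℝ :=
  σ * pw a (k + 2) * f (k + 2) ^ 2 - τ * pw a (k + 1) * TR a f (k + 1) ^ 2

/-- the remaining form in five variables -/
noncomputable def Head (a c d s o σ H1 H2 K0 K1 f0 f1 f2 g0 g1 : ℝ) : ℝ :=
  f0 ^ 2 + pw a 1 * f1 ^ 2 - g0 ^ 2 + o * (g0 - s * f1) ^ 2
    + (σ * pw a 2 * f2 ^ 2 - H1 * f1 ^ 2 - H2 * f2 ^ 2)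
    + (pw a 1 * g1 ^ 2 - K0 * g0 ^ 2 - K1 * g1 ^ 2)
    - ((a * c * (f0 - g0) + a * d * f0 + ((1 - a) * f1 + a * f0)) ^ 2
      + pw a 1 * ((2 - a) / 3 * f2 + (1 + a) / 3 * f0) ^ 2
      - (a * d * f0 + ((1 - a) * g1 + a * g0)) ^ 2
      + o * (a * d * f0 + ((1 - a) * g1 + a * g0)
        - s * ((2 - a) / 3 * f2 + (1 + a) / 3 * f0)) ^ 2)

lemma sum_shift (φ : ℕ → ℝ) (T : ℕ) (h : φ T = 0) :
    ∑ k ∈ range T, φ k = φ 0 + ∑ k ∈ range T, φ (k + 1) := by
  have := Finset.sum_range_succ' φ T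
  rw [Finset.sum_range_succ, h] at this
  linarith

lemma step_of_head {T n : ℕ} {s o σ τ : ℝ} (hn : n ≤ T + 2)
    (h : ∀ f g : ℕ → ℝ, (∀ k, n ≤ k → f k = 0) → (∀ k, n ≤ k + 1 → g k = 0) →
      (n = 2 → g 0 = s * f 1) → ∃ H1 H2 K0 K1 : ℝ,
        -(H1 * f 1 ^ 2 + H2 * f 2 ^ 2) ≤ ∑ i ∈ range T, term a σ τ f (1 + i) ∧
        -(K0 * g 0 ^ 2 + K1 * g 1 ^ 2) ≤ ∑ i ∈ range (T + 1), term a 1 1 g (0 + i) ∧
        0 ≤ Head a (1 / n) (1 / ((T + 1 : ℕ) - n : ℝ)) s o σ H1 H2 K0 K1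
          (f 0) (f 1) (f 2) (g 0) (g 1)) : Step a T n s o σ τ := by
  intro f g hf hg h2
  obtain ⟨H1, H2, K0, K1, t1, t2, t3⟩ := h f g hf hg h2
  have e1 := sum_shift (fun k => pw a (k + 2) * f (k + 2) ^ 2) T (by simp [hf (T + 2) hn])
  have e2 := sum_shift (fun k => pw a (k + 1) * g (k + 1) ^ 2) (T + 1)
    (by simp [hg (T + 1 + 1) (by omega)])
  have e3 : ∑ i ∈ range T, term a σ τ f (1 + i)
      = σ * ∑ k ∈ range T, pw a (k + 1 + 2) * f (k + 1 + 2) ^ 2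
        - τ * ∑ k ∈ range T, pw a (k + 2) * TR a f (k + 2) ^ 2 := by
    rw [Finset.mul_sum, Finset.mul_sum, ← Finset.sum_sub_distrib]
    refine Finset.sum_congr rfl fun i _ => ?_
    rw [term, add_comm 1 i]
    ring
  have e4 : ∑ i ∈ range (T + 1), term a 1 1 g (0 + i)
      = ∑ k ∈ range (T + 1), pw a (k + 1 + 1) * g (k + 1 + 1) ^ 2
        - ∑ k ∈ range (T + 1), pw a (k + 1) * TR a g (k + 1) ^ 2 := by
    rw [← Finset.sum_sub_distrib]
    refine Finset.sum_congr rfl fun i _ => ?_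
    rw [term, zero_add]
    ring
  rw [e3] at t1
  rw [e4] at t2
  simp only [PiR, Nat.add_eq_zero_iff, one_ne_zero, and_false, if_false, if_true,
    OfNat.ofNat_ne_zero, zero_add]
  simp only [zero_add] at e1 e2
  rw [e1, e2]
  have v0 : ∀ f : ℕ → ℝ, TR a f 0 = (1 - a) * f 1 + a * f 0 := fun f => by
    simp [TR, Au_zero, Cd_zero]
  have v1 : TR a f 1 = (2 - a) / 3 * f 2 + (1 + a) / 3 * f 0 := by simp [TR, Au_one, Cd_one]
  rw [v0, v0, v1]
  unfold Head at t3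
  linarith

lemma quad_nonneg {p q b : ℝ} (hp : 0 ≤ p) (hq : 0 ≤ q) (h : b ^ 2 ≤ p * q) (u v : ℝ) :
    0 ≤ p * v ^ 2 + q * u ^ 2 - 2 * b * u * v := by
  rcases hp.eq_or_lt with e | e
  · subst e
    have : b = 0 := by simpa using h
    subst this
    simpa using mul_nonneg hq (sq_nonneg u)
  · refine le_of_mul_le_mul_left ?_ e
    nlinarith [sq_nonneg (p * v - b * u), mul_nonneg (sub_nonneg.2 h) (sq_nonneg u)]

/-- squared off-diagonal entries of the Jacobi matrix -/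
noncomputable def alr (a : ℝ) (k : ℕ) : ℝ := ((k : ℝ) * k - a ^ 2) / (4 * ((k : ℝ) * k) - 1)

lemma alr_eq (a : ℝ) (k : ℕ) : Au a k * Cd a (k + 1) = alr a (k + 1) := by
  unfold Au Cd alr
  push_cast
  have : 4 * (((k : ℝ) + 1) * (k + 1)) - 1 = (2 * k + 1) * (2 * (k + 1) + 1) := by ring
  rw [this]
  field_simp
  ring

lemma term_ge (h0 : 0 < a) (h1 : a < 1) {σ τ A B y h : ℝ} (hτ : 0 ≤ τ) (f : ℕ → ℝ) (k : ℕ)
    (hA : τ * alr a (k + 1) ≤ A) (hB : τ * alr a (k + 2) ≤ B) (hD : 0 ≤ σ - y - B) (hE : A ≤ h)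
    (hP : A * B ≤ (σ - y - B) * (h - A)) :
    y * pw a (k + 2) * f (k + 2) ^ 2 - h * pw a k * f k ^ 2 ≤ term a σ τ f k := by
  have b1 := pw_bal h0 k
  have b2 := pw_bal h0 (k + 1)
  have p0 := pw_pos' h0 h1 k
  have p2 := pw_pos' h0 h1 (k + 2)
  rw [← alr_eq] at hA hB
  have a0 : 0 ≤ τ * (Au a k * Cd a (k + 1)) :=
    mul_nonneg hτ (mul_pos (Au_pos' h1 _) (Cd_pos h0 _)).le
  have b0 : 0 ≤ τ * (Au a (k + 1) * Cd a (k + 1 + 1)) :=
    mul_nonneg hτ (mul_pos (Au_pos' h1 _) (Cd_pos h0 _)).le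
  have q1 : (τ * (Au a k * Cd a (k + 1))) * (τ * (Au a (k + 1) * Cd a (k + 1 + 1)))
      ≤ (σ - y - τ * (Au a (k + 1) * Cd a (k + 1 + 1))) * (h - τ * (Au a k * Cd a (k + 1))) :=
    ((mul_le_mul hA hB b0 (a0.trans hA)).trans hP).trans
      (mul_le_mul (by linarith) (by linarith) (by linarith) (by linarith))
  have q2 := quad_nonneg (p := (σ - y - τ * (Au a (k + 1) * Cd a (k + 1 + 1))) * pw a (k + 2))
    (q := (h - τ * (Au a k * Cd a (k + 1))) * pw a k)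
    (b := τ * pw a (k + 1) * Au a (k + 1) * Cd a (k + 1))
    (mul_nonneg (by linarith) p2.le) (mul_nonneg (by linarith) p0.le) (by
      have := mul_le_mul_of_nonneg_right q1 (mul_pos p0 p2).le
      have e : (τ * pw a (k + 1) * Au a (k + 1) * Cd a (k + 1)) ^ 2
          = (τ * (Au a k * Cd a (k + 1))) * (τ * (Au a (k + 1) * Cd a (k + 1 + 1)))
            * (pw a k * pw a (k + 2)) := by
        linear_combination (τ ^ 2 * Au a (k + 1) ^ 2 * Cd a (k + 1) * pw a (k + 1)) * b1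
          - (τ ^ 2 * Au a k * Cd a (k + 1) * Au a (k + 1) * pw a k) * b2
      rw [e]
      linarith) (f k) (f (k + 2))
  simp only [term, TR, Nat.add_sub_cancel]
  have e : σ * pw a (k + 2) * f (k + 2) ^ 2
      - τ * pw a (k + 1) * (Au a (k + 1) * f (k + 1 + 1) + Cd a (k + 1) * f k) ^ 2
      - (y * pw a (k + 2) * f (k + 2) ^ 2 - h * pw a k * f k ^ 2)
      = (σ - y - τ * (Au a (k + 1) * Cd a (k + 1 + 1))) * pw a (k + 2) * f (k + 2) ^ 2
        + (h - τ * (Au a k * Cd a (k + 1))) * pw a k * f k ^ 2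
        - 2 * (τ * pw a (k + 1) * Au a (k + 1) * Cd a (k + 1)) * f k * f (k + 2) := by
    linear_combination (τ * Au a (k + 1) * f (k + 2) ^ 2) * b2
      - (τ * Cd a (k + 1) * f k ^ 2) * b1
  linarith

lemma term_top (h0 : 0 < a) (σ τ : ℝ) (f : ℕ → ℝ) (k : ℕ) (hf : f (k + 2) = 0) :
    term a σ τ f k = -(τ * alr a (k + 1) * pw a k * f k ^ 2) := by
  have b1 := pw_bal h0 k
  simp only [term, TR, Nat.add_sub_cancel, hf, ← alr_eq]
  linear_combination -(τ * Cd a (k + 1) * f k ^ 2) * b1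

lemma tail_top (h0 : 0 < a) (h1 : a < 1) {σ τ x y : ℝ} (f : ℕ → ℝ) (J R : ℕ)
    (hf : ∀ k, J + 2 ≤ k → f k = 0) (hx : τ * alr a (J + 1) ≤ x) (hy : τ * alr a (J + 2) ≤ y) :
    -(x * pw a J * f J ^ 2 + y * pw a (J + 1) * f (J + 1) ^ 2)
      ≤ ∑ i ∈ range (R + 2), term a σ τ f (J + i) := by
  rw [Finset.sum_range_succ', Finset.sum_range_succ', Finset.sum_eq_zero]
  · rw [add_zero, zero_add, zero_add, term_top h0 σ τ f J (hf _ le_rfl),
      term_top h0 σ τ f (J + 1) (hf _ (by omega))]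
    have p0 := mul_nonneg (pw_pos' h0 h1 J).le (sq_nonneg (f J))
    have p1 := mul_nonneg (pw_pos' h0 h1 (J + 1)).le (sq_nonneg (f (J + 1)))
    nlinarith [mul_le_mul_of_nonneg_right hx p0, mul_le_mul_of_nonneg_right hy p1]
  · intro i _
    rw [term_top h0 σ τ f _ (hf _ (by omega)), hf _ (by omega)]
    simp

lemma frc_eq {β : Type} (n : ℕ) (k : ℕ → β) : frc n k = k n := by
  cases n <;> rfl

lemma div_up (m n : ℕ) (hn : 0 < n) : (m : ℝ) ≤ n * ((m / n + 1 : ℕ) : ℝ) := by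
  have : m < n * (m / n + 1) := Nat.lt_mul_div_succ m hn
  exact_mod_cast this.le

lemma ch_sound (h0 : 0 < a) (h1 : a < 1) {σ τ : ℝ} (hτ : 0 ≤ τ) {S : ℕ} {A : ℕ → ℕ}
    (hS : (S : ℝ) / 16777216 ≤ σ) (hA : ∀ k, τ * alr a (k + 1) ≤ (A (k + 1) : ℝ) / 16777216)
    (f : ℕ → ℝ) (j : ℕ) {x' y' : ℕ} : ∀ (m x y R : ℕ),
      -((x : ℝ) / 16777216 * pw a (j + m) * f (j + m) ^ 2
        + (y : ℝ) / 16777216 * pw a (j + m + 1) * f (j + m + 1) ^ 2)
        ≤ ∑ i ∈ range R, term a σ τ f (j + m + i) →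
      ch S A j m x y (A (j + m + 1)) = some (x', y') →
      -((x' : ℝ) / 16777216 * pw a j * f j ^ 2
        + (y' : ℝ) / 16777216 * pw a (j + 1) * f (j + 1) ^ 2)
        ≤ ∑ i ∈ range (m + R), term a σ τ f (j + i) := by
  intro m
  induction m with
  | zero =>
    intro x y R h e
    simp only [ch, Nat.rec_zero, Option.some.injEq, Prod.mk.injEq] at e
    rw [← e.1, ← e.2, zero_add]
    simpa using h
  | succ m ih =>
    intro x y R h e
    have e' : cond (Nat.blt (y + A (j + m + 2)) S)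
        (ch S A j m (A (j + m + 1) + (A (j + m + 1) * A (j + m + 2) / (S - (y + A (j + m + 2))) + 1))
          x (A (j + m + 1))) none = some (x', y') := by
      rw [← e]
      simp only [ch, frc_eq]
      rfl
    by_cases c : y + A (j + m + 2) < S
    · rw [show Nat.blt (y + A (j + m + 2)) S = true by rw [Nat.blt_eq]; exact c, cond_true] at e'
      rw [show m + 1 + R = m + (R + 1) by omega]
      refine ih _ _ (R + 1) ?_ e'
      rw [Finset.sum_range_succ']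
      have d := div_up (A (j + m + 1) * A (j + m + 2)) (S - (y + A (j + m + 2))) (by omega)
      rw [Nat.cast_sub c.le] at d
      have c' : (y : ℝ) + A (j + m + 2) < S := by exact_mod_cast c
      generalize A (j + m + 1) * A (j + m + 2) / (S - (y + A (j + m + 2))) + 1 = E at d ⊢
      push_cast at d ⊢
      have E0 : (0 : ℝ) ≤ E := Nat.cast_nonneg E
      have t := term_ge h0 h1 (σ := σ) (y := (y : ℝ) / 16777216)
        (h := ((A (j + m + 1) : ℝ) + E) / 16777216) hτ f (j + m) (hA (j + m)) (hA (j + m + 1))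
        (by linarith) (by linarith) (by nlinarith [mul_le_mul_of_nonneg_right hS E0])
      simp only [show ∀ i, j + m + (i + 1) = j + (m + 1) + i from fun i => by omega, add_zero]
      simp only [show j + (m + 1) = j + m + 1 from rfl] at h ⊢
      linarith
    · rw [show Nat.blt (y + A (j + m + 2)) S = false by
        rw [← Bool.not_eq_true, Nat.blt_eq]; exact c, cond_false] at e'
      exact absurd e' (by simp)

lemma aup_ge {p q u v : ℕ} (hq : 0 < q) (hv : 0 < v) (hpq : p ≤ q) (ha : a ^ 2 = p / q) (k : ℕ) :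
    (u : ℝ) / v * alr a (k + 1) ≤ (aup p q u v (k + 1) : ℝ) / 16777216 := by
  have h1 : p ≤ (k + 1) * (k + 1) * q := hpq.trans (Nat.le_mul_of_pos_left q (by positivity))
  have h2 : 1 ≤ 4 * ((k + 1) * (k + 1)) := Nat.one_le_iff_ne_zero.2 (by positivity)
  have h3 : (0 : ℝ) < 4 * (((k : ℝ) + 1) * (k + 1)) - 1 := by
    have : (0 : ℝ) ≤ k := Nat.cast_nonneg k
    nlinarith
  have d := div_up (u * 16777216 * ((k + 1) * (k + 1) * q - p))
    (v * q * (4 * ((k + 1) * (k + 1)) - 1)) (Nat.mul_pos (Nat.mul_pos hv hq) (by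
      have : 0 < (k + 1) * (k + 1) := by positivity
      omega))
  have e : aup p q u v (k + 1) = u * 16777216 * ((k + 1) * (k + 1) * q - p)
      / (v * q * (4 * ((k + 1) * (k + 1)) - 1)) + 1 := rfl
  rw [← e] at d
  push_cast [Nat.cast_sub h1, Nat.cast_sub h2] at d
  have hq' : (0 : ℝ) < q := by exact_mod_cast hq
  have hv' : (0 : ℝ) < v := by exact_mod_cast hv
  unfold alr
  rw [ha]
  push_cast
  have e2 : (u : ℝ) / v * ((((k : ℝ) + 1) * (k + 1) - p / q) / (4 * (((k : ℝ) + 1) * (k + 1)) - 1))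
      = u * 16777216 * ((k + 1) * (k + 1) * q - p)
        / (v * q * (4 * ((k + 1) * (k + 1)) - 1)) / 16777216 := by
    field_simp
  rw [e2]
  refine div_le_div_of_nonneg_right ?_ (by norm_num)
  rw [div_le_iff₀ (by positivity)]
  linarith

lemma head_eq (h0 : 0 < a) (h1 : a < 1) (c d y σ h1' h2 k0 k1 f0 f1 f2 g0 g1 : ℝ) :
    Head a c d (3 * a * y / (1 + a))
      (2 / (1 - 3 * a * y / (1 + a) * (3 * a * y / (1 + a)) / pw a 1)) σ
      (h1' * pw a 1) (h2 * pw a 2) k0 (k1 * pw a 1) f0 f1 f2 g0 g1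
    = headX (a ^ 2) c d y σ h1' h2 k0 k1 f0 (3 * a / (1 + a) * f1) ((2 - a) / (1 + a) * f2) g0
      ((1 - a) / a * g1) := by
  have n1 : 1 - a ≠ 0 := by linarith
  have n2 : 1 + a ≠ 0 := by linarith
  have n3 : 2 - a ≠ 0 := by linarith
  have n4 : 2 + a ≠ 0 := by linarith
  have e1 : 1 - a ^ 2 = (1 - a) * (1 + a) := by ring
  have e2 : 4 - a ^ 2 = (2 - a) * (2 + a) := by ring
  have e3 : 3 * a * y / (1 + a) * (3 * a * y / (1 + a)) / pw a 1
      = y * y / ((1 - a ^ 2) / (3 * a ^ 2)) := by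
    rw [pw_one h0, e1]
    field_simp
  unfold Head headX
  rw [e3]
  generalize 2 / (1 - y * y / ((1 - a ^ 2) / (3 * a ^ 2))) = o
  rw [pw_one h0, pw_two h0, e1, e2]
  field_simp
  ring

end Pool.Agent.P.MP_bdc337_an.RR
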