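import Mathlib

/-! Rational checkers: positivity of small quadratic forms and the finite range. -/

set_option autoImplicit false

namespace Pool.Agent.P.MP_bdc337_an.RR

/-- upper bound, in units of `2 ^ (-24)`, for `(u / v) * (k ^ 2 - p / q) / (4 k ^ 2 - 1)` -/
def aup (p q u v k : ℕ) : ℕ :=
  Nat.succ (Nat.div (Nat.mul (Nat.mul u 16777216) (Nat.sub (Nat.mul (Nat.mul k k) q) p))
    (Nat.mul (Nat.mul v q) (Nat.sub (Nat.mul 4 (Nat.mul k k)) 1)))

/-- evaluate first -/
def frc {β : Type} (n : ℕ) (k : ℕ → β) : β :=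
  Nat.rec (motive := fun _ => β) (k 0) (fun m _ => k (Nat.succ m)) n

/-- backward recursion along the chain: the state `(x, y, b)` belongs to the nodes `j + m`,
`j + m + 1`, and `b = A (j + m + 1)` -/
def ch (S : ℕ) (A : ℕ → ℕ) (j : ℕ) (m : ℕ) : ℕ → ℕ → ℕ → Option (ℕ × ℕ) :=
  Nat.rec (motive := fun _ => ℕ → ℕ → ℕ → Option (ℕ × ℕ)) (fun x y _ => some (x, y))
    (fun m ih x y b => frc (A (Nat.succ (Nat.add j m))) fun a =>
      cond (Nat.blt (Nat.add y b) S)
        (frc (Nat.add a (Nat.succ (Nat.div (Nat.mul a b) (Nat.sub S (Nat.add y b))))) fun h =>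
          ih h x a) none) m

def psd2 (a b c : ℚ) : Bool := decide (0 < a) && decide (b * b ≤ a * c)

def psd3 (a b c d e f : ℚ) : Bool :=
  decide (0 < a) && psd2 (d - b * b / a) (e - b * c / a) (f - c * c / a)

def psd4 (a b c d e f g h i j : ℚ) : Bool :=
  decide (0 < a) && psd3 (e - b * b / a) (f - b * c / a) (g - b * d / a) (h - c * c / a)
    (i - c * d / a) (j - d * d / a)

def psd5 (a b c d e f g h i j k l m n o : ℚ) : Bool :=
  decide (0 < a) && psd4 (f - b * b / a) (g - b * c / a) (h - b * d / a) (i - b * e / a)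
    (j - c * c / a) (k - c * d / a) (l - c * e / a) (m - d * d / a) (n - d * e / a) (o - e * e / a)

/-- the head form in scaled variables -/
def headq (r c d y s h1 h2 k0 k1 : ℚ) : Bool :=
  let p := (1 - r) / (3 * r)
  let om := 2 / (1 - y * y / p)
  let al := (1 - r) / 3
  let u := 1 + c + d
  let v := d - y
  psd5 (1 - r * u * u - al + r * d * d - om * r * v * v) (-(r * u * p)) (-al + om * r * v * y)
    (r * u * c + r * d - om * r * v) (r * d - om * r * v)
    (p + om * y * y - r * p * p - h1 * p) 0 (-(om * y) + r * c * p) 0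
    (-al - om * r * y * y + (s - h2) * (5 * (1 - r) / (4 - r))) (om * r * y) (om * r * y)
    (-1 + om - r * c * c + r - om * r - k0) (r - om * r)
    (r - om * r + (1 - k1) / p)

/-- the second step -/
def twoq (r d y t : ℚ) : Bool :=
  let p := (1 - r) / (3 * r)
  let om := 2 / (1 - y * y / p)
  let al := (1 - r) / 3
  let u := 3 / 2 + d
  let v := d - y
  psd2 (1 - r * u * u - al + r * d * d - om * r * v * v)
    (-(r * u * (p - y / 2)) + r * d * y - om * r * v * y)
    (p - y * y - r * (p - y / 2) * (p - y / 2) + r * y * y - om * r * y * y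
      - t * ((4 - r) / 15) * p - al * y * y)

/-- numerators of the weights on the tail -/
def sn (N n : ℕ) : ℕ :=
  if N = 8 then (if n ≤ 3 then 78 else if n = 4 then 76 else 64)
  else N * N + 8 * (N / 2 + 1 - n)

def rq (N : ℕ) : ℚ := 2 * ((N : ℚ) - 1) / (11 * N + 1)

def stepq (N n : ℕ) : Bool :=
  match ch (sn N n * 16777216 / (N * N)) (aup (2 * (N - 1)) (11 * N + 1) (sn N (n + 1)) (N * N)) 1
      (n - 3) (aup (2 * (N - 1)) (11 * N + 1) (sn N (n + 1)) (N * N) (n - 1))
      (aup (2 * (N - 1)) (11 * N + 1) (sn N (n + 1)) (N * N) n)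
      (aup (2 * (N - 1)) (11 * N + 1) (sn N (n + 1)) (N * N) (n - 1)),
    ch 16777216 (aup (2 * (N - 1)) (11 * N + 1) 1 1) 0 (n - 3)
      (aup (2 * (N - 1)) (11 * N + 1) 1 1 (n - 2)) (aup (2 * (N - 1)) (11 * N + 1) 1 1 (n - 1))
      (aup (2 * (N - 1)) (11 * N + 1) 1 1 (n - 2)) with
  | some (h1, h2), some (k0, k1) =>
    headq (rq N) (1 / n) (1 / ((N : ℚ) - n)) (1 / ((N : ℚ) - 1)) ((sn N n : ℚ) / (N * N))
      ((h1 : ℚ) / 16777216) ((h2 : ℚ) / 16777216) ((k0 : ℚ) / 16777216) ((k1 : ℚ) / 16777216)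
  | _, _ => false

def rowq (N : ℕ) : Bool :=
  twoq (rq N) (1 / ((N : ℚ) - 2)) (1 / ((N : ℚ) - 1)) ((sn N 3 : ℚ) / (N * N)) &&
    (List.range (N / 2 - 2)).all fun i => stepq N (i + 3)

end Pool.Agent.P.MP_bdc337_an.RR
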