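import Pool.Agent.P.MP_bdc337_an.RR.Chk

/-! Rational checkers for large degree. -/

set_option autoImplicit false

namespace Pool.Agent.P.MP_bdc337_an.RR

/-- lower bounds for the up-flows, in units of `10 ^ (-6)` -/
def el : ℕ → ℕ
  | 0 => 573500
  | k + 1 => el k * (10000 * (k + 2) - 4265) / (10000 * (k + 1) + 4265)

/-- upper bounds for the resistances, in units of `10 ^ (-4)` -/
def rho (k : ℕ) : ℕ :=
  3412073694430651055506768535184630979515517931495018159503336155076988654013942728549606849756626510946018988666539789921584262865545761794047507561664468896678530371569110053479532636071342574063874323089885522988641742333472648302202735227466027492546310795014210873004043750100445380502980844745859682837037533 / 65536 ^ (min k 64) % 65536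

/-- resistances in series -/
def res : ℕ → ℕ → ℕ
  | 0, _ => 0
  | 1, j => rho j
  | m + 2, j => rho j + res m (j + 2)

/-- total excess resistance -/
def exc (j : ℕ) : ℕ := ∑ i ∈ Finset.range 33, (rho (j + 2 * i) - rho 64)

def vq (m P c d S C1 C2 G0 G1 : ℚ) : Bool :=
  let k := (2 - 3 * m + P) / 3
  let u := 1 + c + d
  let v := m - P
  let e := d * d
  psd5 (m + k - P * u * u - P * e - e * (7011 / 100)) (-(u * v) + e * 53) (-k + e * 17)
    (P * u * c - P * d + S * (m + P) / 3) (-(d * v) + S * (1 - P) / 3)
    (v + C1 - e * 53) 0 (c * v - S) 0 (k + C2 - e * 17) (S * (2 * m - P) / 3) (S * k)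
    (v - P * c * c + G0 - e * (335 / 100)) (-v + e * 2) (v + G1 - e * 2)

def wq (c d S C1 C2 G0 G1 : ℚ) : Bool :=
  vq (4245 / 10000) (4245 / 10000 * (4245 / 10000)) c d S C1 C2 G0 G1 &&
    vq (4255 / 10000) (4245 / 10000 * (4265 / 10000)) c d S C1 C2 G0 G1 &&
    vq (4265 / 10000) (4265 / 10000 * (4265 / 10000)) c d S C1 C2 G0 G1

def uq (c d : ℚ) (R1 R2 R3 R4 : ℕ) : Bool :=
  wq c 0 0 (10000 / R1) (10000 / R2) (10000 / R3) (10000 / R4) &&
    wq c d 0 (10000 / R1) (10000 / R2) (10000 / R3) (10000 / R4) &&
    wq c d (181 / 100 * d) (10000 / R1) (10000 / R2) (10000 / R3) (10000 / R4)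

def uqm (i : ℕ) : Bool := uq (1 / ((i + 3 : ℕ) : ℚ)) (1 / (128 - ((i + 3 : ℕ) : ℚ)))
    (res (i + 2) 1) (res (i + 1) 2) (res (i + 2) 0) (res (i + 1) 1)

theorem um0 : ((List.range 4).all fun i => uqm (i + 0)) = true := by decide +kernel
theorem um1 : ((List.range 4).all fun i => uqm (i + 4)) = true := by decide +kernel
theorem um2 : ((List.range 4).all fun i => uqm (i + 8)) = true := by decide +kernel
theorem um3 : ((List.range 4).all fun i => uqm (i + 12)) = true := by decide +kernel
theorem um4 : ((List.range 4).all fun i => uqm (i + 16)) = true := by decide +kernel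
theorem um5 : ((List.range 4).all fun i => uqm (i + 20)) = true := by decide +kernel
theorem um6 : ((List.range 4).all fun i => uqm (i + 24)) = true := by decide +kernel
theorem um7 : ((List.range 4).all fun i => uqm (i + 28)) = true := by decide +kernel
theorem um8 : ((List.range 4).all fun i => uqm (i + 32)) = true := by decide +kernel
theorem um9 : ((List.range 4).all fun i => uqm (i + 36)) = true := by decide +kernel
theorem um10 : ((List.range 4).all fun i => uqm (i + 40)) = true := by decide +kernel
theorem um11 : ((List.range 4).all fun i => uqm (i + 44)) = true := by decide +kernel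
theorem um12 : ((List.range 4).all fun i => uqm (i + 48)) = true := by decide +kernel
theorem um13 : ((List.range 4).all fun i => uqm (i + 52)) = true := by decide +kernel
theorem um14 : ((List.range 4).all fun i => uqm (i + 56)) = true := by decide +kernel
theorem um15 : ((List.range 1).all fun i => uqm (i + 60)) = true := by decide +kernel

lemma blk {c s n : ℕ} (h : ((List.range c).all fun i => uqm (i + s)) = true) (h1 : s ≤ n)
    (h2 : n < s + c) : uqm n = true := by
  have : uqm (n - s + s) = true := List.all_eq_true.1 h (n - s) (List.mem_range.2 (by omega))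
  rwa [Nat.sub_add_cancel h1] at this

theorem uq_mid : ((List.range 61).all fun i => uq (1 / ((i + 3 : ℕ) : ℚ)) (1 / (128 - ((i + 3 : ℕ) : ℚ)))
    (res (i + 2) 1) (res (i + 1) 2) (res (i + 2) 0) (res (i + 1) 1)) = true := by
  refine List.all_eq_true.2 fun i hi => ?_
  have h := List.mem_range.1 hi
  show uqm i = true
  rcases lt_or_ge i 4 with c0 | c0
  · exact blk um0 (Nat.zero_le _) (by omega)
  rcases lt_or_ge i 8 with c1 | c1
  · exact blk um1 c0 (by omega)
  rcases lt_or_ge i 12 with c2 | c2
  · exact blk um2 c1 (by omega)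
  rcases lt_or_ge i 16 with c3 | c3
  · exact blk um3 c2 (by omega)
  rcases lt_or_ge i 20 with c4 | c4
  · exact blk um4 c3 (by omega)
  rcases lt_or_ge i 24 with c5 | c5
  · exact blk um5 c4 (by omega)
  rcases lt_or_ge i 28 with c6 | c6
  · exact blk um6 c5 (by omega)
  rcases lt_or_ge i 32 with c7 | c7
  · exact blk um7 c6 (by omega)
  rcases lt_or_ge i 36 with c8 | c8
  · exact blk um8 c7 (by omega)
  rcases lt_or_ge i 40 with c9 | c9
  · exact blk um9 c8 (by omega)
  rcases lt_or_ge i 44 with c10 | c10
  · exact blk um10 c9 (by omega)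
  rcases lt_or_ge i 48 with c11 | c11
  · exact blk um11 c10 (by omega)
  rcases lt_or_ge i 52 with c12 | c12
  · exact blk um12 c11 (by omega)
  rcases lt_or_ge i 56 with c13 | c13
  · exact blk um13 c12 (by omega)
  rcases lt_or_ge i 60 with c14 | c14
  · exact blk um14 c13 (by omega)
  exact blk um15 c14 (by omega)

theorem uq_top : uq (1 / 64) (1 / 64) (32 * rho 64 + exc 1) (32 * rho 64 + exc 2)
    (32 * rho 64 + exc 0) (32 * rho 64 + exc 1) = true := by decide +kernel

theorem rho_low : ∀ k < 64, rho 64 ≤ rho k ∧
    10 ^ 14 * (2 * k + 3) ≤ rho k * (el k * (10000 * (k + 2) - 4265)) := by decide +kernel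

theorem rho_top : 2 * 10 ^ 10 ≤ rho 64 * el 64 := by decide +kernel

end Pool.Agent.P.MP_bdc337_an.RR
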