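import Pool.Agent.P.MP_bdc337_an.RR.C

/-! The steps in the finite range. -/

set_option autoImplicit false

open Finset PowerSeries

namespace Pool.Agent.P.MP_bdc337_an.RR

variable {a : ℝ}

lemma step_two (h0 : 0 < a) (h1 : a < 1) {T : ℕ} (hT : 2 ≤ T) {y σ τ : ℝ}
    (h : ∀ X0 X1 : ℝ, 0 ≤ headX (a ^ 2) (1 / 2) (1 / ((T + 1 : ℕ) - 2 : ℝ)) y 0
      (τ * ((4 - a ^ 2) / 15)) 0 ((1 - a ^ 2) / 3) 0 X0 X1 0 (y * X1) 0) :
    Step a T 2 (3 * a * y / (1 + a))
      (2 / (1 - 3 * a * y / (1 + a) * (3 * a * y / (1 + a)) / pw a 1)) σ τ := by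
  refine step_of_head (by omega) fun f g hf hg h2 => ?_
  obtain ⟨R, rfl⟩ : ∃ R, T = R + 2 := ⟨T - 2, by omega⟩
  have t1 := tail_top h0 h1 (σ := σ) (τ := τ) f 1 R (fun k hk => hf k (by omega)) le_rfl le_rfl
  have t2 := tail_top h0 h1 (σ := 1) (τ := 1) g 0 (R + 1) (fun k hk => hg k (by omega))
    le_rfl le_rfl
  rw [pw_zero, mul_one] at t2
  refine ⟨_, _, _, _, t1, t2, ?_⟩
  rw [head_eq h0 h1, hf 2 le_rfl, hg 1 le_rfl, h2 rfl]
  refine le_of_le_of_eq (h (f 0) (3 * a / (1 + a) * f 1)) ?_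
  unfold headX alr
  push_cast
  generalize 2 / (1 - y * y / ((1 - a ^ 2) / (3 * a ^ 2))) = o
  generalize (1 - a ^ 2) / (3 * a ^ 2) = p
  ring

lemma step_fin (h0 : 0 < a) (h1 : a < 1) {T n : ℕ} (hn : 3 ≤ n) (hT : 2 * n ≤ T + 1)
    (ha : a ^ 2 = 2 * T / (11 * T + 12)) (h : stepq (T + 1) n = true) :
    Step a T n (3 * a * (1 / T) / (1 + a))
      (2 / (1 - 3 * a * (1 / T) / (1 + a) * (3 * a * (1 / T) / (1 + a)) / pw a 1))
      ((sn (T + 1) n : ℝ) / ((T + 1) * (T + 1))) ((sn (T + 1) (n + 1) : ℝ) / ((T + 1) * (T + 1))) := by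
  refine step_of_head (by omega) fun f g hf hg _ => ?_
  obtain ⟨m, rfl⟩ : ∃ m, n = m + 3 := ⟨n - 3, by omega⟩
  obtain ⟨R, hR⟩ : ∃ R, T = m + (R + 2) := ⟨T - m - 2, by omega⟩
  have ha' : a ^ 2 = ((2 * (T + 1 - 1) : ℕ) : ℝ) / ((11 * (T + 1) + 1 : ℕ) : ℝ) := by
    rw [ha, Nat.add_sub_cancel]
    push_cast
    ring
  have A1 := aup_ge (u := sn (T + 1) (m + 3 + 1)) (v := (T + 1) * (T + 1)) (by omega)
    (by positivity) (by omega) ha'
  have A2 := aup_ge (u := 1) (v := 1) (by omega) one_pos (by omega) ha'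
  push_cast at A1 A2
  rw [div_one] at A2
  have hS : ((sn (T + 1) (m + 3) * 16777216 / ((T + 1) * (T + 1)) : ℕ) : ℝ) / 16777216
      ≤ (sn (T + 1) (m + 3) : ℝ) / ((T + 1) * (T + 1)) := by
    have := Nat.cast_div_le (α := ℝ) (m := sn (T + 1) (m + 3) * 16777216) (n := (T + 1) * (T + 1))
    push_cast at this
    rw [div_le_iff₀ (by norm_num), div_mul_eq_mul_div]
    exact this
  unfold stepq at h
  split at h
  · rename_i x1 x2 k0 k1 c1 c2
    rw [show m + 3 - 3 = m from rfl, show m + 3 - 1 = 1 + m + 1 by omega] at c1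
    rw [show m + 3 - 3 = m from rfl, show m + 3 - 2 = 0 + m + 1 by omega,
      show m + 3 - 1 = 0 + m + 2 by omega] at c2
    have u1 := tail_top h0 h1 (σ := (sn (T + 1) (m + 3) : ℝ) / ((T + 1) * (T + 1))) f (1 + m) R
      (fun k hk => hf k (by omega)) (A1 (1 + m)) (A1 (1 + m + 1))
    rw [show 1 + m + 1 + 1 = m + 3 by omega] at u1
    have u2 := tail_top h0 h1 (σ := 1) g (0 + m) (R + 1)
      (fun k hk => hg k (by omega)) (A2 (0 + m)) (A2 (0 + m + 1))
    have t1 := ch_sound h0 h1 (by positivity) hS A1 f 1 m _ _ _ u1 c1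
    have t2 := ch_sound h0 h1 (σ := 1) zero_le_one (by norm_num) A2 g 0 m _ _ _ u2 c2
    rw [← hR] at t1
    rw [show m + (R + 1 + 2) = T + 1 by omega, pw_zero, mul_one] at t2
    refine ⟨_, _, _, _, t1, t2, ?_⟩
    rw [head_eq h0 h1]
    have := headq_sound h (f 0) (3 * a / (1 + a) * f 1) ((2 - a) / (1 + a) * f 2) (g 0)
      ((1 - a) / a * g 1)
    have e : ((rq (T + 1) : ℚ) : ℝ) = a ^ 2 := by
      rw [ha, rq]
      push_cast
      ring
    rw [e] at this
    push_cast at this ⊢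
    simpa only [add_sub_cancel_right] using this
  · exact absurd h (by simp)

lemma shear_ok (h0 : 0 < a) (h1 : a ≤ 1 / 2) {T : ℕ} (hT : 2 ≤ T) :
    3 * a * (1 / T) / (1 + a) * (3 * a * (1 / T) / (1 + a)) / pw a 1 < 1 ∧
      3 * a * (1 / T) / (1 + a) * Cd a 1 = a * (1 / ((T + 1 : ℕ) - (1 : ℕ) : ℝ)) := by
  have hT' : (2 : ℝ) ≤ T := by exact_mod_cast hT
  constructor
  · have n1 : 0 < 1 - a := by linarith
    have e : 3 * a * (1 / T) / (1 + a) * (3 * a * (1 / T) / (1 + a)) / pw a 1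
        = 3 * a ^ 2 / (T ^ 2 * ((1 - a) * (1 + a))) := by
      rw [pw_one h0]
      field_simp
    rw [e, div_lt_one (by positivity)]
    have : (4 : ℝ) ≤ T ^ 2 := by nlinarith
    have : 3 / 4 ≤ (1 - a) * (1 + a) := by nlinarith
    nlinarith
  · rw [Cd_one]
    push_cast
    rw [add_sub_cancel_right]
    field_simp

lemma half_of_sq {T : ℕ} (ha : a ^ 2 = 2 * T / (11 * T + 12)) : a ^ 2 ≤ 2 / 11 := by
  have : (0 : ℝ) ≤ T := Nat.cast_nonneg T
  rw [ha, div_le_div_iff₀ (by positivity) (by norm_num)]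
  linarith

theorem bound_fin (h0 : 0 < a) {w : ℂ⟦X⟧} (hw : Contr w) {F : ℂ⟦X⟧} (hF0 : coeff 0 F = 1)
    (hF : X * d⁄dX ℂ F = (2 * C (a : ℂ) * KK a w) * F) {T : ℕ} (hT : 2 ≤ T)
    (ha : a ^ 2 = 2 * T / (11 * T + 12)) (h : T = 2 ∨ rowq (T + 1) = true) :
    ‖coeff (T + 1) (KK a w * F)‖ ≤ 1 := by
  have a2 := half_of_sq ha
  have h1 : a ≤ 1 / 2 := by nlinarith
  have hT' : (2 : ℝ) ≤ T := by exact_mod_cast hT
  obtain ⟨s1, s2⟩ := shear_ok h0 h1 hT
  refine chain h0 (by linarith) hw hF0 hF (by omega) s1 s2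
    (fun n => (sn (T + 1) n : ℝ) / ((T + 1) * (T + 1))) (fun m => ?_) (fun m => ?_) fun n n1 n2 => ?_
  · refine div_le_div_of_nonneg_right (Nat.cast_le.2 ?_) (by positivity)
    unfold sn
    split_ifs <;> omega
  · rw [le_div_iff₀ (by positivity), one_mul]
    have : (T + 1) * (T + 1) ≤ sn (T + 1) m := by
      unfold sn
      split_ifs with c
      all_goals first | omega | (rw [c]; done) | (rw [c]; norm_num)
    exact_mod_cast this
  · rcases n1.eq_or_lt with rfl | n3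
    · refine step_one h0 (by omega) _ _ _ s2 (le_of_eq ?_)
      rw [ha]
      field_simp
    rcases h with rfl | h
    · omega
    simp only [rowq, Bool.and_eq_true, List.all_eq_true, List.mem_range] at h
    rcases (show 2 ≤ n from n3).eq_or_lt with rfl | n4
    · refine step_two h0 (by linarith) hT fun X0 X1 => ?_
      have := twoq_sound h.1 X0 X1
      have e : ((rq (T + 1) : ℚ) : ℝ) = a ^ 2 := by
        rw [ha, rq]
        push_cast
        ring
      rw [e] at this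
      push_cast at this ⊢
      simpa only [add_sub_cancel_right] using this
    · have := h.2 (n - 3) (by omega)
      rw [show n - 3 + 3 = n by omega] at this
      exact step_fin h0 (by linarith) n4 n2 ha this

end Pool.Agent.P.MP_bdc337_an.RR
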