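import Pool.Agent.P.MP_bdc337_an.RR.D
import Pool.Agent.P.MP_bdc337_an.RR.Chk2

/-! Resistances and the concave form for large degree. -/

set_option autoImplicit false

open Finset

namespace Pool.Agent.P.MP_bdc337_an.RR

variable {a : ℝ}

lemma el_le (h0 : 0 < a) (h1 : a ≤ 4265 / 10000) (k : ℕ) :
    (el k : ℝ) / 1000000 ≤ pw a k * Au a k := by
  induction k with
  | zero =>
    rw [pw_zero, Au_zero, el]
    push_cast
    linarith
  | succ k ih =>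
    have hk : (0 : ℝ) ≤ k := Nat.cast_nonneg k
    have d := Nat.cast_div_le (α := ℝ) (m := el k * (10000 * (k + 2) - 4265))
      (n := 10000 * (k + 1) + 4265)
    rw [ee_succ h0, el]
    refine (div_le_div_of_nonneg_right d (by norm_num)).trans ?_
    push_cast [Nat.cast_sub (by omega : 4265 ≤ 10000 * (k + 2))]
    rw [mul_div_assoc, mul_div_right_comm]
    refine mul_le_mul ih ?_ (div_nonneg (by linarith) (by linarith))
      (le_trans (div_nonneg (Nat.cast_nonneg _) (by norm_num)) ih)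
    rw [div_le_div_iff₀ (by linarith) (by linarith)]
    nlinarith

lemma ee_mono (h0 : 0 < a) (h1 : a ≤ 4265 / 10000) (j k : ℕ) (h : j ≤ k) :
    pw a j * Au a j ≤ pw a k * Au a k := by
  induction k, h using Nat.le_induction with
  | base => exact le_rfl
  | succ k _ ih =>
    have hk : (0 : ℝ) ≤ k := Nat.cast_nonneg k
    have p := mul_pos (pw_pos' h0 (by linarith) k) (Au_pos' (a := a) (by linarith) k)
    rw [ee_succ h0]
    refine ih.trans (le_mul_of_one_le_right p.le ?_)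
    rw [le_div_iff₀ (by linarith)]
    linarith

lemma rho_ge {k : ℕ} (h : 64 ≤ k) : rho k = rho 64 := by
  unfold rho
  rw [min_eq_right h, min_self]

lemma rho_kap (h0 : 0 < a) (h1 : a ≤ 4265 / 10000) (k : ℕ) : 10000 ≤ (rho k : ℝ) * kap a k := by
  have hk : (0 : ℝ) ≤ k := Nat.cast_nonneg k
  have r0 : (0 : ℝ) ≤ rho k := Nat.cast_nonneg _
  have e : Au a (k + 1) = (k + 2 - a) / (2 * k + 3) := by
    unfold Au
    push_cast
    congr 1 <;> ring
  unfold kap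
  rw [e]
  rcases lt_or_ge k 64 with c | c
  · have t : ((10 ^ 14 * (2 * k + 3) : ℕ) : ℝ)
        ≤ (rho k * (el k * (10000 * (k + 2) - 4265)) : ℕ) := Nat.cast_le.2 (rho_low k c).2
    push_cast [Nat.cast_sub (by omega : 4265 ≤ 10000 * (k + 2))] at t
    have u := mul_le_mul (el_le h0 h1 k)
      (show ((k : ℝ) + 2 - 4265 / 10000) / (2 * k + 3) ≤ (k + 2 - a) / (2 * k + 3) from
        div_le_div_of_nonneg_right (by linarith) (by linarith))
      (div_nonneg (by linarith) (by linarith)) (le_trans (by positivity) (el_le h0 h1 k))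
    refine le_trans ?_ (mul_le_mul_of_nonneg_left u r0)
    rw [← mul_div_assoc, ← mul_div_assoc, le_div_iff₀ (by linarith)]
    linarith
  · have t : ((2 * 10 ^ 10 : ℕ) : ℝ) ≤ (rho 64 * el 64 : ℕ) := Nat.cast_le.2 rho_top
    push_cast at t
    have u := mul_le_mul ((el_le h0 h1 64).trans (ee_mono h0 h1 64 k c))
      (show (1 / 2 : ℝ) ≤ (k + 2 - a) / (2 * k + 3) by
        rw [le_div_iff₀ (by linarith)]
        linarith) (by norm_num) (le_trans (by positivity) (el_le h0 h1 k))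
    refine le_trans ?_ (mul_le_mul_of_nonneg_left u r0)
    rw [rho_ge c]
    linarith

lemma rho_min (k : ℕ) : rho 64 ≤ rho k := by
  rcases lt_or_ge k 64 with c | c
  · exact (rho_low k c).1
  · rw [rho_ge c]

lemma exc_succ (j : ℕ) : exc j = (rho j - rho 64) + exc (j + 2) := by
  have h1 := Finset.sum_range_succ' (fun i => rho (j + 2 * i) - rho 64) 33
  rw [Finset.sum_range_succ, rho_ge (k := j + 2 * 33) (by omega), Nat.sub_self] at h1
  unfold exc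
  simp only [show ∀ i, j + 2 + 2 * i = j + 2 * (i + 1) from fun i => by omega]
  simp only [mul_zero, add_zero] at h1
  omega

lemma res_le : ∀ m j : ℕ, 2 * res m j ≤ (m + 1) * rho 64 + 2 * exc j
  | 0, j => by simp [res]
  | 1, j => by
    have := exc_succ j
    have := rho_min j
    simp only [res]
    omega
  | m + 2, j => by
    have := exc_succ j
    have := rho_min j
    have := res_le m (j + 2)
    simp only [res, add_mul] at *
    omega

lemma term_one (h0 : 0 < a) (f : ℕ → ℝ) (k : ℕ) :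
    term a 1 1 f k = kap a k * (f (k + 2) - f k) ^ 2
      + pw a (k + 2) * Au a (k + 2) * f (k + 2) ^ 2 - pw a k * Au a k * f k ^ 2 := by
  have b1 := pw_bal h0 k
  have b2 := pw_bal h0 (k + 1)
  have c1 := Au_add_Cd a (k + 1)
  have c2 := Au_add_Cd a (k + 2)
  simp only [term, TR, kap, Nat.add_sub_cancel]
  linear_combination (Au a (k + 1) * (f (k + 2) - f k) ^ 2 - f k ^ 2) * b1 + f (k + 2) ^ 2 * b2
    - pw a (k + 1) * (Au a (k + 1) * f (k + 2) ^ 2 + Cd a (k + 1) * f k ^ 2) * c1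
    - pw a (k + 2) * f (k + 2) ^ 2 * c2

lemma ser {κ t ρ ρ' x y : ℝ} (hκ : 0 < κ) (ht : 0 ≤ t) (hρ : 1 / κ + t ≤ ρ) (hρ' : 0 < ρ')
    (h : y = 0 ∨ ρ' = t) : 1 / ρ * x ^ 2 ≤ κ * (y - x) ^ 2 + 1 / ρ' * y ^ 2 := by
  have p : 0 < 1 / κ + t := by positivity
  refine (mul_le_mul_of_nonneg_right (one_div_le_one_div_of_le p hρ) (sq_nonneg x)).trans ?_
  rcases h with rfl | rfl
  · have : 1 / (1 / κ + t) ≤ κ := by
      rw [div_le_iff₀ p, mul_add, mul_one_div_cancel hκ.ne']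
      nlinarith
    nlinarith [mul_le_mul_of_nonneg_right this (sq_nonneg x)]
  · have : κ * (y - x) ^ 2 + 1 / ρ' * y ^ 2 - 1 / (1 / κ + ρ') * x ^ 2
        = ((1 + κ * ρ') * y - κ * ρ' * x) ^ 2 / (ρ' * (1 + κ * ρ')) := by
      field_simp
      ring
    have h2 : 0 ≤ ((1 + κ * ρ') * y - κ * ρ' * x) ^ 2 / (ρ' * (1 + κ * ρ')) := by positivity
    linarith

lemma tail_res (h0 : 0 < a) (h1 : a ≤ 4265 / 10000) (f : ℕ → ℝ) : ∀ (m j R : ℕ) (ρ ρ' : ℝ),
    m ≤ R → (∀ k, j + m ≤ k → f k = 0) → 0 < ρ' → (res m j : ℝ) ≤ 10000 * ρ →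
    (res (m - 1) (j + 1) : ℝ) ≤ 10000 * ρ' →
    -((pw a j * Au a j - 1 / ρ) * f j ^ 2 + (pw a (j + 1) * Au a (j + 1) - 1 / ρ') * f (j + 1) ^ 2)
      ≤ ∑ i ∈ range R, term a 1 1 f (j + i) := by
  intro m
  induction m with
  | zero =>
    intro j R ρ ρ' _ hf _ _ _
    rw [hf j le_rfl, hf (j + 1) (by omega), Finset.sum_eq_zero]
    · simp
    · intro i _
      rw [term_one h0, hf _ (by omega), hf _ (by omega)]
      simp
  | succ m ih =>
    intro j R ρ ρ' hR hf p' r r'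
    obtain ⟨R, rfl⟩ : ∃ R', R = R' + 1 := ⟨R - 1, by omega⟩
    have hκ : 0 < kap a j := mul_pos (mul_pos (pw_pos' h0 (by linarith) _)
      (Au_pos' (by linarith) _)) (Au_pos' (by linarith) _)
    have k1 : 1 / kap a j ≤ rho j / 10000 := by
      rw [div_le_div_iff₀ hκ (by norm_num)]
      linarith [rho_kap h0 h1 j]
    have e : res (m + 1) j = rho j + res (m - 1) (j + 2) := by
      cases m <;> simp [res]
    rw [e] at r
    push_cast at r
    obtain ⟨ρ'', p'', r'', c⟩ : ∃ ρ'' : ℝ, 0 < ρ'' ∧ (res (m - 1) (j + 2) : ℝ) ≤ 10000 * ρ'' ∧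
        (f (j + 2) = 0 ∨ ρ'' = res (m - 1) (j + 2) / 10000) := by
      rcases le_or_gt m 1 with c | c
      · refine ⟨1, one_pos, ?_, Or.inl (hf _ (by omega))⟩
        rw [show m - 1 = 0 by omega]
        simp [res]
      · refine ⟨_, ?_, by linarith, Or.inr rfl⟩
        obtain ⟨l, rfl⟩ : ∃ l, m = l + 2 := ⟨m - 2, by omega⟩
        have h3 : 0 < rho (j + 2) := lt_of_lt_of_le (by decide +kernel) (rho_min _)
        have : 0 < res (l + 2 - 1) (j + 2) := by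
          cases l <;> simp only [res, Nat.add_one_sub_one] <;> omega
        positivity
    have t1 := ih (j + 1) R ρ' ρ'' (by omega) (fun k hk => hf k (by omega)) p'' r' r''
    have t2 := ser (x := f j) hκ (t := res (m - 1) (j + 2) / 10000) (ρ := ρ) (by positivity)
      (by linarith) p'' c
    have t3 : ∑ i ∈ range R, term a 1 1 f (j + (i + 1)) = ∑ i ∈ range R, term a 1 1 f (j + 1 + i) :=
      Finset.sum_congr rfl fun i _ => by rw [show j + (i + 1) = j + 1 + i by omega]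
    rw [Finset.sum_range_succ', add_zero, term_one h0, t3]
    simp only [show j + 1 + 1 = j + 2 from rfl] at t1
    linarith

/-- the concave lower form -/
noncomputable def Ql (m P c d S C1 C2 G0 G1 f0 f1 f2 g0 g1 : ℝ) : ℝ :=
  (m - P) * ((f1 - f0) ^ 2 + (g1 - g0) ^ 2) + (2 - 3 * m + P) / 3 * (f2 - f0) ^ 2
    + C1 * f1 ^ 2 + C2 * f2 ^ 2 + G0 * g0 ^ 2 + G1 * g1 ^ 2
    - 2 * ((c + d) * f0 - c * g0) * (P * f0 + (m - P) * f1) - P * ((c + d) * f0 - c * g0) ^ 2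
    - 2 * d * f0 * (P * g0 + (m - P) * g1) - P * (d * f0) ^ 2
    - 2 * S * (g0 * f1 - ((m + P) * g0 * f0 + (2 * m - P) * g0 * f2 + (1 - P) * g1 * f0
      + (2 - 3 * m + P) * g1 * f2) / 3)
    - d ^ 2 * (11 / 100 * f0 ^ 2 + 53 * (f1 - f0) ^ 2 + 17 * (f2 - f0) ^ 2 + 135 / 100 * g0 ^ 2
      + 2 * (g1 - g0) ^ 2)

variable {f0 f1 f2 g0 g1 : ℝ}

lemma vq_sound {m P c d S C1 C2 G0 G1 : ℚ} (h : vq m P c d S C1 C2 G0 G1 = true) :
    0 ≤ Ql m P c d S C1 C2 G0 G1 f0 f1 f2 g0 g1 := by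
  have := psd5_sound h f0 f1 f2 g0 g1
  push_cast at this
  refine le_of_le_of_eq this ?_
  unfold Ql
  ring

lemma wq_sound (l : 4245 / 10000 ≤ a) (u : a ≤ 4265 / 10000) {c d S C1 C2 G0 G1 : ℚ}
    (h : wq c d S C1 C2 G0 G1 = true) : 0 ≤ Ql a (a ^ 2) c d S C1 C2 G0 G1 f0 f1 f2 g0 g1 := by
  simp only [wq, Bool.and_eq_true] at h
  have t1 := vq_sound (f0 := f0) (f1 := f1) (f2 := f2) (g0 := g0) (g1 := g1) h.1.1
  have t2 := vq_sound (f0 := f0) (f1 := f1) (f2 := f2) (g0 := g0) (g1 := g1) h.1.2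
  have t3 := vq_sound (f0 := f0) (f1 := f1) (f2 := f2) (g0 := g0) (g1 := g1) h.2
  obtain ⟨θ, rfl⟩ : ∃ θ, a = 4245 / 10000 + θ / 500 := ⟨500 * (a - 4245 / 10000), by ring⟩
  have θ0 : 0 ≤ θ := by linarith
  have θ1 : 0 ≤ 1 - θ := by linarith
  push_cast at t1 t2 t3
  refine le_of_le_of_eq (add_nonneg (add_nonneg (mul_nonneg (sq_nonneg (1 - θ)) t1)
    (mul_nonneg (mul_nonneg (mul_nonneg zero_le_two θ0) θ1) t2)) (mul_nonneg (sq_nonneg θ) t3)) ?_
  unfold Ql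
  ring

lemma Ql_conc {m P c d S C1 C2 G0 G1 c' d' S' C1' C2' G0' G1' l : ℝ} (hP : 0 ≤ P) (l0 : 0 ≤ l)
    (l1 : l ≤ 1) (h : 0 ≤ Ql m P c d S C1 C2 G0 G1 f0 f1 f2 g0 g1)
    (h' : 0 ≤ Ql m P c' d' S' C1' C2' G0' G1' f0 f1 f2 g0 g1) :
    0 ≤ Ql m P (l * c + (1 - l) * c') (l * d + (1 - l) * d') (l * S + (1 - l) * S')
      (l * C1 + (1 - l) * C1') (l * C2 + (1 - l) * C2') (l * G0 + (1 - l) * G0')
      (l * G1 + (1 - l) * G1') f0 f1 f2 g0 g1 := by
  have l2 : 0 ≤ 1 - l := by linarith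
  have : 0 ≤ l * (1 - l) * (P * ((c - c' + (d - d')) * f0 - (c - c') * g0) ^ 2
      + P * ((d - d') * f0) ^ 2 + (d - d') ^ 2 * (11 / 100 * f0 ^ 2 + 53 * (f1 - f0) ^ 2
        + 17 * (f2 - f0) ^ 2 + 135 / 100 * g0 ^ 2 + 2 * (g1 - g0) ^ 2)) := by positivity
  refine le_of_le_of_eq (add_nonneg (add_nonneg (mul_nonneg l0 h) (mul_nonneg l2 h')) this) ?_
  unfold Ql
  ring

lemma uq_sound (l : 4245 / 10000 ≤ a) (u : a ≤ 4265 / 10000) {c e : ℚ} {R1 R2 R3 R4 : ℕ}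
    (h : uq c e R1 R2 R3 R4 = true) {d S t : ℝ} (d0 : 0 < d) (d1 : d ≤ e) (S0 : 0 ≤ S)
    (S1 : S ≤ 181 / 100 * d) (t0 : 0 ≤ t) (t1 : t ≤ 1) :
    0 ≤ Ql a (a ^ 2) (t * c) (t * d) (t * S) (t * (10000 / R1)) (t * (10000 / R2))
      (t * (10000 / R3)) (t * (10000 / R4)) f0 f1 f2 g0 g1 := by
  simp only [uq, Bool.and_eq_true] at h
  have u1 := wq_sound (f0 := f0) (f1 := f1) (f2 := f2) (g0 := g0) (g1 := g1) l u h.1.1
  have u2 := wq_sound (f0 := f0) (f1 := f1) (f2 := f2) (g0 := g0) (g1 := g1) l u h.1.2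
  have u3 := wq_sound (f0 := f0) (f1 := f1) (f2 := f2) (g0 := g0) (g1 := g1) l u h.2
  push_cast at u1 u2 u3
  have e0 : (0 : ℝ) < e := d0.trans_le d1
  have u0 : 0 ≤ Ql a (a ^ 2) 0 0 0 0 0 0 0 f0 f1 f2 g0 g1 := by
    have p1 : 0 ≤ a - a ^ 2 := by nlinarith
    have p2 : 0 ≤ 2 - 3 * a + a ^ 2 := by nlinarith
    have : 0 ≤ (a - a ^ 2) * ((f1 - f0) ^ 2 + (g1 - g0) ^ 2)
      + (2 - 3 * a + a ^ 2) / 3 * (f2 - f0) ^ 2 := by positivity
    refine le_of_le_of_eq this ?_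
    unfold Ql
    ring
  have v1 := Ql_conc (l := S / (181 / 100 * d)) (sq_nonneg a) (by positivity)
    (by rw [div_le_one (by positivity)]; exact S1) u3 u2
  have v2 := Ql_conc (l := d / e) (sq_nonneg a) (by positivity)
    (by rw [div_le_one e0]; exact d1) v1 u1
  have v3 := Ql_conc (sq_nonneg a) t0 t1 v2 u0
  convert v3 using 2 <;> field_simp <;> ring

lemma head_ge (l : 4245 / 10000 ≤ a) (u : a ≤ 4265 / 10000) {c d s o C1 C2 G0 G1 : ℝ}
    (d0 : 0 ≤ d) (d1 : d ≤ 1 / 64) (o0 : 2 ≤ o) (o1 : o - 2 ≤ 135 / 100 * d ^ 2)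
    (s0 : 0 ≤ o * s) (s1 : o * s ≤ 181 / 100 * d) (s2 : o * s ^ 2 ≤ 165 / 100 * d ^ 2) :
    Ql a (a ^ 2) c d (o * s) C1 C2 G0 G1 f0 f1 f2 g0 g1
      ≤ Head a c d s o 1 (pw a 1 * Au a 1 - C1) (pw a 2 * Au a 2 - C2) (pw a 0 * Au a 0 - G0)
        (pw a 1 * Au a 1 - G1) f0 f1 f2 g0 g1 := by
  have h0 : 0 < a := by linarith
  have a2 : Au a 2 = (3 - a) / 5 := by unfold Au; push_cast; ring
  have e : Head a c d s o 1 (pw a 1 * Au a 1 - C1) (pw a 2 * Au a 2 - C2) (pw a 0 * Au a 0 - G0)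
        (pw a 1 * Au a 1 - G1) f0 f1 f2 g0 g1 - Ql a (a ^ 2) c d (o * s) C1 C2 G0 G1 f0 f1 f2 g0 g1
      = d ^ 2 * (11 / 100 * f0 ^ 2 + 53 * (f1 - f0) ^ 2 + 17 * (f2 - f0) ^ 2 + 135 / 100 * g0 ^ 2
          + 2 * (g1 - g0) ^ 2)
        - (o - 2) * ((g0 + ((1 - a) * (g1 - g0) + a * d * f0)) ^ 2 - g0 ^ 2)
        - o * s ^ 2 * ((f0 + (2 - a) / 3 * (f2 - f0)) ^ 2 - (f0 + (f1 - f0)) ^ 2)
        + 2 * (o * s) * a * d * (f0 * (f0 + (2 - a) / 3 * (f2 - f0))) := by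
    unfold Head Ql
    rw [pw_one h0, pw_two h0, pw_zero, Au_zero, Au_one, a2]
    field_simp
    ring
  rw [← sub_nonneg, e]
  clear e
  generalize f1 - f0 = p, f2 - f0 = q, g1 - g0 = r
  have b0 : ((1 - a) * r) ^ 2 ≤ 34 / 100 * r ^ 2 := by
    rw [mul_pow]
    exact mul_le_mul_of_nonneg_right (by nlinarith) (sq_nonneg r)
  have b1 : (a * d * f0) ^ 2 ≤ 1 / 10000 * f0 ^ 2 := by
    rw [mul_pow]
    refine mul_le_mul_of_nonneg_right ?_ (sq_nonneg f0)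
    have : a * d ≤ 1 / 100 := by nlinarith
    have : 0 ≤ a * d := by positivity
    nlinarith
  have b2 : ((2 - a) / 3 * q) ^ 2 ≤ 28 / 100 * q ^ 2 := by
    rw [mul_pow]
    exact mul_le_mul_of_nonneg_right (by nlinarith) (sq_nonneg q)
  generalize (1 - a) * r = r' at *
  generalize a * d * f0 = z at *
  generalize (2 - a) / 3 * q = q' at *
  have c1 : (g0 + (r' + z)) ^ 2 - g0 ^ 2 ≤ g0 ^ 2 + 136 / 100 * r ^ 2 + 4 / 10000 * f0 ^ 2 := by
    linarith [sq_nonneg (g0 - (r' + z)), sq_nonneg (r' - z)]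
  have c2 : (f0 + q') ^ 2 - (f0 + p) ^ 2 ≤ 1 / 16 * f0 ^ 2 + 32 * p ^ 2 + 924 / 100 * q ^ 2 := by
    linarith [sq_nonneg (f0 - 16 * (q' - p)), sq_nonneg (q' + p), sq_nonneg p]
  have c3 : -(7 / 100 * q ^ 2) ≤ f0 * (f0 + q') := by linarith [sq_nonneg (2 * f0 + q')]
  have o3 : 0 ≤ o * s ^ 2 := mul_nonneg (by linarith) (sq_nonneg s)
  have e1 := (mul_le_mul_of_nonneg_left c1 (sub_nonneg.2 o0)).trans
    (mul_le_mul_of_nonneg_right o1 (by positivity))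
  have e2 := (mul_le_mul_of_nonneg_left c2 o3).trans
    (mul_le_mul_of_nonneg_right s2 (by positivity))
  have s3 : 0 ≤ 2 * (o * s) * a * d :=
    mul_nonneg (mul_nonneg (mul_nonneg zero_le_two s0) h0.le) d0
  have s4 : 2 * (o * s) * a * d ≤ 2 * d ^ 2 := by
    have : o * s * a ≤ d := by nlinarith
    nlinarith
  have e3 := mul_le_mul_of_nonneg_left c3 s3
  have e4 := mul_le_mul_of_nonneg_right s4 (sq_nonneg q)
  linarith [mul_nonneg (sq_nonneg d) (sq_nonneg f0), mul_nonneg (sq_nonneg d) (sq_nonneg p),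
    mul_nonneg (sq_nonneg d) (sq_nonneg q), mul_nonneg (sq_nonneg d) (sq_nonneg r)]

end Pool.Agent.P.MP_bdc337_an.RR
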