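import Pool.Agent.P.MP_bdc337_an.RR.E

/-! The steps for large degree. -/

set_option autoImplicit false

open Finset PowerSeries

namespace Pool.Agent.P.MP_bdc337_an.RR

variable {a : ℝ}

lemma o_bounds (l : 4245 / 10000 ≤ a) (u : a ≤ 4265 / 10000) {y d s o : ℝ} (y0 : 0 < y)
    (yd : y ≤ d) (d1 : d ≤ 1 / 64) (hs : s = 3 * a * y / (1 + a))
    (ho : o = 2 / (1 - s * s / pw a 1)) :
    2 ≤ o ∧ o ≤ 2001 / 1000 ∧ o - 2 ≤ 135 / 100 * d ^ 2 ∧ 0 ≤ o * s ∧ o * s ≤ 181 / 100 * d ∧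
      o * s ^ 2 ≤ 165 / 100 * d ^ 2 := by
  have h0 : 0 < a := by linarith
  have s0 : 0 ≤ s := by rw [hs]; positivity
  have s1 : s ≤ 9 / 10 * d := by
    rw [hs, div_le_iff₀ (by linarith)]
    nlinarith
  have s2 : s ^ 2 ≤ 81 / 100 * d ^ 2 := by nlinarith
  have d2 : d ^ 2 ≤ 1 / 4096 := by nlinarith
  have p1 : 1206 / 1000 ≤ pw a 1 := by
    rw [pw_one h0, le_div_iff₀ (by linarith)]
    linarith
  have t0 : 0 ≤ s * s / pw a 1 := div_nonneg (mul_self_nonneg s) (by linarith)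
  have t1 : s * s / pw a 1 ≤ 672 / 1000 * d ^ 2 := by
    rw [div_le_iff₀ (by linarith)]
    nlinarith [sq_nonneg d]
  generalize s * s / pw a 1 = t at *
  have e : o * (1 - t) = 2 := by rw [ho]; exact div_mul_cancel₀ _ (by linarith)
  have o0 : 2 ≤ o := by
    rw [ho, le_div_iff₀ (by linarith)]
    linarith
  have o1 : o ≤ 2001 / 1000 := by
    rw [ho, div_le_iff₀ (by linarith)]
    linarith
  refine ⟨o0, o1, ?_, mul_nonneg (by linarith) s0, ?_, ?_⟩
  · have := mul_le_mul o1 t1 t0 (by norm_num)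
    nlinarith [sq_nonneg d]
  · have := mul_le_mul o1 s1 s0 (by norm_num)
    linarith
  · have := mul_le_mul o1 s2 (sq_nonneg s) (by norm_num)
    nlinarith [sq_nonneg d]

lemma step_uni (l : 4245 / 10000 ≤ a) (u : a ≤ 4265 / 10000) {T n : ℕ} (hT : 127 ≤ T)
    (hn : 3 ≤ n) (hn2 : 2 * n ≤ T + 1) {c e : ℚ} {R1 R2 R3 R4 : ℕ}
    (h : uq c e R1 R2 R3 R4 = true) {t : ℝ} (t0 : 0 < t) (t1 : t ≤ 1) (hc : t * c = 1 / n)
    (he : 1 / ((T + 1 : ℕ) - n : ℝ) ≤ t * e) (p2 : 0 < R2) (p4 : 0 < R4)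
    (r1 : t * res (n - 1) 1 ≤ R1) (r2 : t * res (n - 1 - 1) 2 ≤ R2)
    (r3 : t * res (n - 1) 0 ≤ R3) (r4 : t * res (n - 1 - 1) 1 ≤ R4) :
    Step a T n (3 * a * (1 / T) / (1 + a))
      (2 / (1 - 3 * a * (1 / T) / (1 + a) * (3 * a * (1 / T) / (1 + a)) / pw a 1)) 1 1 := by
  have h0 : 0 < a := by linarith
  have T1 : (127 : ℝ) ≤ T := by exact_mod_cast hT
  have n1 : (3 : ℝ) ≤ n := by exact_mod_cast hn
  have n2 : 2 * (n : ℝ) ≤ T + 1 := by exact_mod_cast hn2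
  refine step_of_head (by omega) fun f g hf hg _ => ?_
  have key : ∀ (x : ℝ) (R : ℕ), t * x ≤ R → x ≤ 10000 * (R / (10000 * t)) := by
    intro x R hx
    rw [← mul_div_assoc, le_div_iff₀ (by positivity)]
    linarith
  have q1 := tail_res h0 u f (n - 1) 1 T (R1 / (10000 * t)) (R2 / (10000 * t)) (by omega)
    (fun k hk => hf k (by omega)) (by positivity) (key _ _ r1) (key _ _ r2)
  have q2 := tail_res h0 u g (n - 1) 0 (T + 1) (R3 / (10000 * t)) (R4 / (10000 * t)) (by omega)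
    (fun k hk => hg k (by omega)) (by positivity) (key _ _ r3) (key _ _ r4)
  refine ⟨_, _, _, _, q1, q2, ?_⟩
  push_cast at he ⊢
  have d0 : 0 < 1 / ((T : ℝ) + 1 - n) := by
    apply one_div_pos.2
    linarith
  have d1 : 1 / ((T : ℝ) + 1 - n) ≤ 1 / 64 := one_div_le_one_div_of_le (by norm_num) (by linarith)
  obtain ⟨o0, -, o1, s0, s1, s2⟩ := o_bounds l u (y := 1 / T) (by positivity)
    (one_div_le_one_div_of_le (by linarith) (by linarith)) d1 rfl rfl
  refine le_trans ?_ (head_ge l u d0.le d1 o0 o1 s0 s1 s2)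
  generalize 1 / ((T : ℝ) + 1 - n) = d at *
  generalize 2 / (1 - 3 * a * (1 / T) / (1 + a) * (3 * a * (1 / T) / (1 + a)) / pw a 1)
    * (3 * a * (1 / T) / (1 + a)) = S at *
  have := uq_sound (f0 := f 0) (f1 := f 1) (f2 := f 2) (g0 := g 0) (g1 := g 1) l u h (d := d / t)
    (S := S / t) (by positivity) (by rw [div_le_iff₀ t0]; linarith) (by positivity)
    (by rw [← mul_div_assoc]; exact div_le_div_of_nonneg_right s1 t0.le) t0.le t1
  have e1 : ∀ R : ℝ, t * (10000 / R) = 1 / (R / (10000 * t)) := fun R => by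
    rw [one_div_div]
    ring
  rw [hc, mul_div_cancel₀ _ t0.ne', mul_div_cancel₀ _ t0.ne', e1, e1, e1, e1] at this
  exact this

lemma two_big {r d y o p : ℝ} (r0 : 18 / 100 ≤ r) (r1 : r ≤ 2 / 11) (y0 : 0 ≤ y) (yd : y ≤ d)
    (d1 : d ≤ 1 / 64) (o0 : 2 ≤ o) (o1 : o ≤ 2001 / 1000) (hp : r * p = (1 - r) / 3) (X0 X1 : ℝ) :
    0 ≤ X0 ^ 2 + p * X1 ^ 2 - (y * X1) ^ 2 - (4 - r) / 15 * p * X1 ^ 2 - (1 - r) / 3 * (y * X1) ^ 2
      - (r * ((1 + 1 / 2 + d) * X0 - 1 / 2 * (y * X1) + p * X1) ^ 2 + (1 - r) / 3 * X0 ^ 2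
        - r * (d * X0 + y * X1) ^ 2 + o * (r * ((d - y) * X0 + y * X1) ^ 2)) := by
  have p0 : 3 / 2 ≤ p := by nlinarith
  have p1 : p ≤ 152 / 100 := by nlinarith
  have a1 : (y * X1) ^ 2 ≤ 1 / 4096 * X1 ^ 2 := by
    rw [mul_pow]
    exact mul_le_mul_of_nonneg_right (by nlinarith) (sq_nonneg _)
  have a2 : ((d - y) * X0) ^ 2 ≤ 1 / 4096 * X0 ^ 2 := by
    rw [mul_pow]
    exact mul_le_mul_of_nonneg_right (by nlinarith) (sq_nonneg _)
  have a3 : ((1 + 1 / 2 + d) * X0) ^ 2 ≤ 23 / 10 * X0 ^ 2 := by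
    rw [mul_pow]
    exact mul_le_mul_of_nonneg_right (by nlinarith) (sq_nonneg _)
  have a4 : ((p - 1 / 2 * y) * X1) ^ 2 ≤ 232 / 100 * X1 ^ 2 := by
    rw [mul_pow]
    exact mul_le_mul_of_nonneg_right (by nlinarith) (sq_nonneg _)
  have b1 : ((d - y) * X0 + y * X1) ^ 2 ≤ 1 / 2048 * X0 ^ 2 + 1 / 2048 * X1 ^ 2 := by
    linarith [sq_nonneg ((d - y) * X0 - y * X1)]
  have b2 : ((1 + 1 / 2 + d) * X0 - 1 / 2 * (y * X1) + p * X1) ^ 2
      ≤ 5 / 3 * (23 / 10) * X0 ^ 2 + 5 / 2 * (232 / 100) * X1 ^ 2 := by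
    linarith [sq_nonneg (2 * ((1 + 1 / 2 + d) * X0) - 3 * ((p - 1 / 2 * y) * X1))]
  have c1 := mul_le_mul o1 (mul_le_mul r1 b1 (sq_nonneg _) (by norm_num)) (by positivity)
    (by norm_num)
  have c2 := mul_le_mul r1 b2 (sq_nonneg _) (by norm_num)
  have c3 : 0 ≤ r * (d * X0 + y * X1) ^ 2 := by positivity
  have c4 : (1 - r) / 3 * X0 ^ 2 ≤ 274 / 1000 * X0 ^ 2 :=
    mul_le_mul_of_nonneg_right (by linarith) (sq_nonneg _)
  have c5 : (1 - r) / 3 * (y * X1) ^ 2 ≤ 1 * (1 / 4096 * X1 ^ 2) :=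
    mul_le_mul (by linarith) a1 (sq_nonneg _) (by norm_num)
  have c6 : 111 / 100 * X1 ^ 2 ≤ (1 - (4 - r) / 15) * p * X1 ^ 2 :=
    mul_le_mul_of_nonneg_right (by nlinarith) (sq_nonneg _)
  linarith [sq_nonneg X0, sq_nonneg X1]

theorem bound_big (h0 : 0 < a) {w : ℂ⟦X⟧} (hw : Contr w) {F : ℂ⟦X⟧} (hF0 : coeff 0 F = 1)
    (hF : X * d⁄dX ℂ F = (2 * C (a : ℂ) * KK a w) * F) {T : ℕ} (hT : 127 ≤ T)
    (ha : a ^ 2 = 2 * T / (11 * T + 12)) : ‖coeff (T + 1) (KK a w * F)‖ ≤ 1 := by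
  have a2 := half_of_sq ha
  have T1 : (127 : ℝ) ≤ T := by exact_mod_cast hT
  have a3 : 254 / 1409 ≤ a ^ 2 := by
    rw [ha, div_le_div_iff₀ (by norm_num) (by linarith)]
    linarith
  have u : a ≤ 4265 / 10000 := by nlinarith
  have l : 4245 / 10000 ≤ a := by nlinarith
  obtain ⟨s1, s2⟩ := shear_ok h0 (by linarith) (T := T) (by omega)
  refine chain h0 (by linarith) hw hF0 hF (by omega) s1 s2 (fun _ => 1) (fun _ => le_rfl)
    (fun _ => le_rfl) fun n n1 n2 => ?_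
  rcases n1.eq_or_lt with rfl | n3
  · refine step_one h0 (by omega) _ _ _ s2 (le_of_eq ?_)
    rw [ha]
    field_simp
  rcases (show 2 ≤ n from n3).eq_or_lt with rfl | n4
  · refine step_two h0 (by linarith) (by omega) fun X0 X1 => ?_
    have d1 : 1 / (((T + 1 : ℕ) : ℝ) - 2) ≤ 1 / 64 :=
      one_div_le_one_div_of_le (by norm_num) (by push_cast; linarith)
    have yd : 1 / (T : ℝ) ≤ 1 / (((T + 1 : ℕ) : ℝ) - 2) :=
      one_div_le_one_div_of_le (by push_cast; linarith) (by push_cast; linarith)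
    obtain ⟨o0, o1, -⟩ := o_bounds l u (y := 1 / T) (by positivity) yd d1 rfl rfl
    have e3 : 3 * a * (1 / T) / (1 + a) * (3 * a * (1 / T) / (1 + a)) / pw a 1
        = 1 / T * (1 / T) / ((1 - a ^ 2) / (3 * a ^ 2)) := by
      have n1 : 1 - a ≠ 0 := by linarith
      rw [pw_one h0, show 1 - a ^ 2 = (1 - a) * (1 + a) by ring]
      field_simp
    rw [e3] at o0 o1
    refine le_of_le_of_eq (two_big (r := a ^ 2) (p := (1 - a ^ 2) / (3 * a ^ 2)) (by linarith) a2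
      (by positivity) yd d1 o0 o1 (by field_simp) X0 X1) ?_
    unfold headX
    ring
  have n5 : (3 : ℝ) ≤ n := by exact_mod_cast n4
  have n6 : 2 * (n : ℝ) ≤ T + 1 := by exact_mod_cast n2
  rcases lt_or_ge n 64 with c | c
  · have h := uq_mid
    simp only [List.all_eq_true, List.mem_range] at h
    obtain ⟨i, rfl⟩ : ∃ i, n = i + 3 := ⟨n - 3, by omega⟩
    have c' : ((i + 3 : ℕ) : ℝ) < 64 := by exact_mod_cast c
    have pos : ∀ j, 0 < res (i + 1) j := fun j => by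
      have : 0 < rho j := lt_of_lt_of_le (by decide +kernel) (rho_min _)
      cases i <;> simp only [res] <;> omega
    refine step_uni l u hT n4 n2 (h i (by omega)) one_pos le_rfl (by push_cast; ring) ?_ (pos 2)
      (pos 1) (one_mul _).le (one_mul _).le (one_mul _).le (one_mul _).le
    push_cast at c' ⊢
    rw [one_mul]
    exact one_div_le_one_div_of_le (by linarith) (by linarith)
  · have c' : (64 : ℝ) ≤ n := by exact_mod_cast c
    have pos : ∀ j, 0 < 32 * rho 64 + exc j := fun j => by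
      have : 0 < rho 64 := by decide +kernel
      omega
    have key : ∀ m j, m + 1 ≤ n → 64 / (n : ℝ) * res m j ≤ (32 * rho 64 + exc j : ℕ) := by
      intro m j hm
      have h1 : 64 * res m j ≤ (32 * rho 64 + exc j) * n := by
        have b1 := res_le m j
        have b2 := Nat.mul_le_mul_right (rho 64) hm
        have b3 := Nat.mul_le_mul_left (exc j) c
        generalize rho 64 = r at b1 b2 ⊢
        generalize exc j = x at b1 b3 ⊢
        generalize res m j = y at b1 ⊢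
        nlinarith
      rw [div_mul_eq_mul_div, div_le_iff₀ (by linarith)]
      exact_mod_cast h1
    refine step_uni l u hT n4 n2 uq_top (t := 64 / n) (by positivity)
      (by rw [div_le_one (by linarith)]; exact c') (by push_cast; field_simp) ?_ (pos 2) (pos 1)
      (key _ _ (by omega)) (key _ _ (by omega)) (key _ _ (by omega)) (key _ _ (by omega))
    push_cast
    rw [show 64 / (n : ℝ) * (1 / 64) = 1 / n by field_simp]
    exact one_div_le_one_div_of_le (by linarith) (by linarith)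

end Pool.Agent.P.MP_bdc337_an.RR
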