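import Pool.Agent.P.MP_bdc337_an.RR.A

/-! The order seven coefficient at the end point. -/

set_option autoImplicit false

open Finset PowerSeries

namespace Pool.Agent.P.MP_bdc337_an.RR

variable {a : ℝ} {w : ℂ⟦X⟧}

/-- short side form -/
noncomputable def PM (u0 u1 u2 g0 : ℝ) : ℝ :=
  u0 ^ 2 + 361 / 186 * (u1 - 2 / 19 * g0) ^ 2 + 3 * u2 ^ 2
    + 3 * (g0 - 1 / 5 * u1 - 3 / 4 * u2) ^ 2

/-- long side form -/
noncomputable def PL (u0 u1 u2 g0 g1 : ℝ) : ℝ :=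
  u0 ^ 2 + 361 / 186 * (u1 - 2 / 19 * g0) ^ 2
    + (817 / 250 * u2 - 19 / 50 * g1 - 95 / 124 * (g0 - 1 / 5 * u1)) ^ 2 / 3
    + (95 / 93 * (g0 - 1 / 5 * u1)) ^ 2 / 3

/-- short side form, complex -/
noncomputable def PMc (u0 u1 u2 g0 : ℂ) : ℝ :=
  ‖u0‖ ^ 2 + 361 / 186 * ‖u1 - 2 / 19 * g0‖ ^ 2 + 3 * ‖u2‖ ^ 2
    + 3 * ‖g0 - 1 / 5 * u1 - 3 / 4 * u2‖ ^ 2

/-- long side form, complex -/
noncomputable def PLc (u0 u1 u2 g0 g1 : ℂ) : ℝ :=
  ‖u0‖ ^ 2 + 361 / 186 * ‖u1 - 2 / 19 * g0‖ ^ 2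
    + ‖817 / 250 * u2 - 19 / 50 * g1 - 95 / 124 * (g0 - 1 / 5 * u1)‖ ^ 2 / 3
    + ‖95 / 93 * (g0 - 1 / 5 * u1)‖ ^ 2 / 3

lemma nsq_ri (z : ℂ) : ‖z‖ ^ 2 = z.re ^ 2 + z.im ^ 2 := by
  rw [Complex.sq_norm, Complex.normSq_apply]
  ring

lemma PMc_eq (u0 u1 u2 g0 : ℂ) :
    PMc u0 u1 u2 g0 = PM u0.re u1.re u2.re g0.re + PM u0.im u1.im u2.im g0.im := by
  simp only [PMc, PM, nsq_ri, Complex.sub_re, Complex.sub_im, Complex.mul_re, Complex.mul_im,
    Complex.div_ofNat_re, Complex.div_ofNat_im, Complex.re_ofNat, Complex.im_ofNat, Complex.one_re,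
    Complex.one_im]
  ring

lemma PLc_eq (u0 u1 u2 g0 g1 : ℂ) :
    PLc u0 u1 u2 g0 g1 = PL u0.re u1.re u2.re g0.re g1.re + PL u0.im u1.im u2.im g0.im g1.im := by
  simp only [PLc, PL, nsq_ri, Complex.sub_re, Complex.sub_im, Complex.mul_re, Complex.mul_im,
    Complex.div_ofNat_re, Complex.div_ofNat_im, Complex.re_ofNat, Complex.im_ofNat, Complex.one_re,
    Complex.one_im]
  ring

lemma sr1 (ha : a ^ 2 = 10 / 67) (p : ℝ) :
    PM (a * (11 / 5 * p)) (a * p) 0 (a * (1 / 5 * p)) + PL (a * (11 / 5 * p)) (a * p) 0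
      (a * (1 / 5 * p)) 0 ≤ PM p 0 0 0 + PL p 0 0 0 0 := by
  have e : PM (a * (11 / 5 * p)) (a * p) 0 (a * (1 / 5 * p)) + PL (a * (11 / 5 * p)) (a * p) 0
      (a * (1 / 5 * p)) 0 = a ^ 2 * (67 / 5 * p ^ 2) := by
    unfold PM PL
    ring
  rw [e, ha]
  unfold PM PL
  apply le_of_eq
  ring

lemma sr2 (ha : a ^ 2 = 10 / 67) (p q : ℝ) :
    PM (a * (7 / 4 * p + 9 / 5 * q)) (a * p) (a * q) (a * (1 / 4 * p + 1 / 5 * q))
      + PL (a * (7 / 4 * p + 9 / 5 * q)) (a * p) (a * q) (a * (1 / 4 * p + 1 / 5 * q))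
        (a * (1 / 5 * q))
      ≤ PM p q 0 (1 / 5 * q) + PL p q 0 (1 / 5 * q) 0 := by
  have e : PM (a * (7 / 4 * p + 9 / 5 * q)) (a * p) (a * q) (a * (1 / 4 * p + 1 / 5 * q))
      + PL (a * (7 / 4 * p + 9 / 5 * q)) (a * p) (a * q) (a * (1 / 4 * p + 1 / 5 * q))
        (a * (1 / 5 * q))
      = a ^ 2 * (PM (7 / 4 * p + 9 / 5 * q) p q (1 / 4 * p + 1 / 5 * q)
        + PL (7 / 4 * p + 9 / 5 * q) p q (1 / 4 * p + 1 / 5 * q) (1 / 5 * q)) := by
    unfold PM PL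
    ring
  have h : (0 : ℝ) ≤ (595499639 / 1112607360) * (p + (-5067018836 / 2977498195) * q) ^ 2
      + (157447177067667 / 997461895325000) * q ^ 2 := by positivity
  rw [e, ha]
  unfold PM PL
  linarith

lemma sr3 (ha : a ^ 2 = 10 / 67) (p q z y : ℝ) :
    PL (a * (5 / 3 * p - 1 / 3 * y + 19 / 10 * q)) (a * (p + 43 / 25 * z)) (a * q)
        (a * (1 / 3 * p + y + 19 / 50 * z)) (a * y)
      ≤ PL p q z y (1 / 5 * z) := by
  have e : PL (a * (5 / 3 * p - 1 / 3 * y + 19 / 10 * q)) (a * (p + 43 / 25 * z)) (a * q)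
        (a * (1 / 3 * p + y + 19 / 50 * z)) (a * y)
      = a ^ 2 * PL (5 / 3 * p - 1 / 3 * y + 19 / 10 * q) (p + 43 / 25 * z) q
        (1 / 3 * p + y + 19 / 50 * z) y := by
    unfold PL
    ring
  have h : (0 : ℝ) ≤ (9833707 / 31292082) * (p + (-356751999 / 245842675) * q
        + (-58826223 / 39334828) * z + (31165311 / 98337070) * y) ^ 2
      + (197193591688599749 / 854769905022150000) * (q
        + (-1218190362512040 / 546242636256509) * z
        + (5056772392025765 / 10378610088873671) * y) ^ 2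
      + (833019884712985968177 / 1143695519662065718750) * (z
        + (-14757911132449148125 / 29228767884666174322) * y) ^ 2
      + (578491095063916306409 / 3710515165148148024456) * y ^ 2 := by positivity
  rw [e, ha]
  unfold PL
  linarith

lemma sc1 (ha : a ^ 2 = 10 / 67) (p : ℂ) :
    PMc (a * (11 / 5 * p)) (a * p) 0 (a * (1 / 5 * p)) + PLc (a * (11 / 5 * p)) (a * p) 0
      (a * (1 / 5 * p)) 0 ≤ PMc p 0 0 0 + PLc p 0 0 0 0 := by
  have h1 := sr1 ha p.re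
  have h2 := sr1 ha p.im
  simp only [PMc_eq, PLc_eq, Complex.mul_re, Complex.mul_im, Complex.ofReal_re, Complex.ofReal_im,
    Complex.div_ofNat_re, Complex.div_ofNat_im, Complex.re_ofNat, Complex.im_ofNat, Complex.one_re,
    Complex.one_im, Complex.zero_re, Complex.zero_im, zero_div, zero_mul, sub_zero, add_zero]
  linarith

lemma sc2 (ha : a ^ 2 = 10 / 67) (p q : ℂ) :
    PMc (a * (7 / 4 * p + 9 / 5 * q)) (a * p) (a * q) (a * (1 / 4 * p + 1 / 5 * q))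
      + PLc (a * (7 / 4 * p + 9 / 5 * q)) (a * p) (a * q) (a * (1 / 4 * p + 1 / 5 * q))
        (a * (1 / 5 * q))
      ≤ PMc p q 0 (1 / 5 * q) + PLc p q 0 (1 / 5 * q) 0 := by
  have h1 := sr2 ha p.re q.re
  have h2 := sr2 ha p.im q.im
  simp only [PMc_eq, PLc_eq, Complex.mul_re, Complex.mul_im, Complex.ofReal_re, Complex.ofReal_im,
    Complex.div_ofNat_re, Complex.div_ofNat_im, Complex.re_ofNat, Complex.im_ofNat, Complex.one_re,
    Complex.one_im, Complex.zero_re, Complex.zero_im, zero_div, zero_mul, sub_zero, add_zero,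
    Complex.add_re, Complex.add_im]
  linarith

lemma sc3 (ha : a ^ 2 = 10 / 67) (p q z y : ℂ) :
    PLc (a * (5 / 3 * p - 1 / 3 * y + 19 / 10 * q)) (a * (p + 43 / 25 * z)) (a * q)
        (a * (1 / 3 * p + y + 19 / 50 * z)) (a * y)
      ≤ PLc p q z y (1 / 5 * z) := by
  have h1 := sr3 ha p.re q.re z.re y.re
  have h2 := sr3 ha p.im q.im z.im y.im
  simp only [PLc_eq, Complex.mul_re, Complex.mul_im, Complex.ofReal_re, Complex.ofReal_im,
    Complex.div_ofNat_re, Complex.div_ofNat_im, Complex.re_ofNat, Complex.im_ofNat, Complex.one_re,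
    Complex.one_im, zero_div, zero_mul, sub_zero, add_zero,
    Complex.add_re, Complex.add_im, Complex.sub_re, Complex.sub_im]
  linarith

lemma six_core (hw : Contr w) (ha : a ^ 2 = 10 / 67) (U0 U1 U2 G0 G1 : ℂ⟦X⟧)
    (z0 : coeff 0 U0 = 1) (z1 : coeff 0 U1 = 0) (z2 : coeff 0 U2 = 0) (z3 : coeff 0 G0 = 0)
    (z4 : coeff 0 G1 = 0)
    (r0 : ∀ n : ℕ, 1 ≤ n → n ≤ 3 → coeff n U0 = a * ((1 / n + 1 / (6 - n) + 1) * coeff n (w * U0)
      - 1 / n * coeff n (w * G0) + 19 / 10 * coeff n (w * U1)))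
    (r1 : ∀ n : ℕ, n ≤ 3 → coeff n U1 = a * (coeff n (w * U0) + 43 / 25 * coeff n (w * U2)))
    (r2 : ∀ n : ℕ, n ≤ 3 → coeff n U2 = a * coeff n (w * U1))
    (r3 : ∀ n : ℕ, n ≤ 3 → coeff n G0 = a * (1 / (6 - n) * coeff n (w * U0) + coeff n (w * G0)
      + 19 / 10 * coeff n (w * G1)))
    (r4 : ∀ n : ℕ, n ≤ 3 → coeff n G1 = a * coeff n (w * G0)) :
    ‖beta w 6 3 4 U0 U0 + 19 / 10 * beta w 6 3 4 U1 U1 + 817 / 250 * beta w 6 3 4 U2 U2
      - beta w 6 3 4 G0 G0 - 19 / 10 * beta w 6 3 4 G1 G1‖ ≤ 1 := by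
  have w0 := hw.1
  have c1 : ∀ x : ℂ⟦X⟧, coeff 1 (w * x) = coeff 1 w * coeff 0 x := fun x => by
    rw [coeff_conv w0 x (le_refl 1)]
    simp
  have c2 : ∀ x : ℂ⟦X⟧, coeff 2 (w * x) = coeff 2 w * coeff 0 x + coeff 1 w * coeff 1 x :=
    fun x => by
      rw [coeff_conv w0 x (le_refl 2)]
      simp only [Finset.sum_range_succ, Finset.sum_range_zero, zero_add]
  have c3 : ∀ x : ℂ⟦X⟧, coeff 3 (w * x)
      = coeff 3 w * coeff 0 x + coeff 2 w * coeff 1 x + coeff 1 w * coeff 2 x := fun x => by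
    rw [coeff_conv w0 x (le_refl 3)]
    simp only [Finset.sum_range_succ, Finset.sum_range_zero, zero_add]
  have x11 : coeff 1 (w * U1) = 0 := by rw [c1, z1, mul_zero]
  have x12 : coeff 1 (w * U2) = 0 := by rw [c1, z2, mul_zero]
  have x13 : coeff 1 (w * G0) = 0 := by rw [c1, z3, mul_zero]
  have x14 : coeff 1 (w * G1) = 0 := by rw [c1, z4, mul_zero]
  have v10 : coeff 1 U0 = a * (11 / 5 * coeff 1 (w * U0)) := by
    rw [r0 1 le_rfl (by norm_num), x11, x13]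
    push_cast
    ring
  have v11 : coeff 1 U1 = a * coeff 1 (w * U0) := by
    rw [r1 1 (by norm_num), x12]
    ring
  have v12 : coeff 1 U2 = 0 := by rw [r2 1 (by norm_num), x11, mul_zero]
  have v13 : coeff 1 G0 = a * (1 / 5 * coeff 1 (w * U0)) := by
    rw [r3 1 (by norm_num), x13, x14]
    push_cast
    ring
  have v14 : coeff 1 G1 = 0 := by rw [r4 1 (by norm_num), x13, mul_zero]
  have x22 : coeff 2 (w * U2) = 0 := by rw [c2, z2, v12]; ring
  have x23 : coeff 2 (w * G0) = 1 / 5 * coeff 2 (w * U1) := by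
    rw [c2, c2, z3, z1, v13, v11]
    ring
  have x24 : coeff 2 (w * G1) = 0 := by rw [c2, z4, v14]; ring
  have v20 : coeff 2 U0 = a * (7 / 4 * coeff 2 (w * U0) + 9 / 5 * coeff 2 (w * U1)) := by
    rw [r0 2 (by norm_num) (by norm_num), x23]
    push_cast
    ring
  have v21 : coeff 2 U1 = a * coeff 2 (w * U0) := by
    rw [r1 2 (by norm_num), x22]
    ring
  have v22 : coeff 2 U2 = a * coeff 2 (w * U1) := r2 2 (by norm_num)
  have v23 : coeff 2 G0 = a * (1 / 4 * coeff 2 (w * U0) + 1 / 5 * coeff 2 (w * U1)) := by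
    rw [r3 2 (by norm_num), x23, x24]
    push_cast
    ring
  have v24 : coeff 2 G1 = a * (1 / 5 * coeff 2 (w * U1)) := by rw [r4 2 (by norm_num), x23]
  have x34 : coeff 3 (w * G1) = 1 / 5 * coeff 3 (w * U2) := by
    rw [c3, c3, z4, z2, v14, v12, v24, v22]
    ring
  have v30 : coeff 3 U0 = a * (5 / 3 * coeff 3 (w * U0) - 1 / 3 * coeff 3 (w * G0)
      + 19 / 10 * coeff 3 (w * U1)) := by
    rw [r0 3 (by norm_num) le_rfl]
    push_cast
    ring
  have v31 := r1 3 le_rfl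
  have v32 := r2 3 le_rfl
  have v33 : coeff 3 G0 = a * (1 / 3 * coeff 3 (w * U0) + coeff 3 (w * G0)
      + 19 / 50 * coeff 3 (w * U2)) := by
    rw [r3 3 le_rfl, x34]
    push_cast
    ring
  have v34 := r4 3 le_rfl
  have s1 := sc1 ha (coeff 1 (w * U0))
  have s2 := sc2 ha (coeff 2 (w * U0)) (coeff 2 (w * U1))
  have s3 := sc3 ha (coeff 3 (w * U0)) (coeff 3 (w * U1)) (coeff 3 (w * U2)) (coeff 3 (w * G0))
  set v := G0 - C (1 / 5 : ℂ) * U1 with hv
  have m0 := mm hw (N := 6) (M := 3) (L := 4) rfl (by norm_num) (by norm_num) U0 U0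
  have m1 := mm hw (N := 6) (M := 3) (L := 4) rfl (by norm_num) (by norm_num)
    (U1 - C (2 / 19 : ℂ) * G0) (U1 - C (2 / 19 : ℂ) * G0)
  have m2 := mm_weighted hw (N := 6) (M := 3) (L := 4) rfl (by norm_num) (by norm_num) U2
    (C (817 / 250 : ℂ) * U2 - C (19 / 50 : ℂ) * G1 - C (95 / 124 : ℂ) * v) (mu := 3) (by norm_num)
  have m3 := mm_weighted hw (N := 6) (M := 3) (L := 4) rfl (by norm_num) (by norm_num)
    (v - C (3 / 4 : ℂ) * U2) (C (95 / 93 : ℂ) * v) (mu := 3) (by norm_num)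
  have e : beta w 6 3 4 U0 U0 + 19 / 10 * beta w 6 3 4 U1 U1 + 817 / 250 * beta w 6 3 4 U2 U2
      - beta w 6 3 4 G0 G0 - 19 / 10 * beta w 6 3 4 G1 G1
      = beta w 6 3 4 U0 U0
        + 361 / 186 * beta w 6 3 4 (U1 - C (2 / 19 : ℂ) * G0) (U1 - C (2 / 19 : ℂ) * G0)
        + beta w 6 3 4 U2 (C (817 / 250 : ℂ) * U2 - C (19 / 50 : ℂ) * G1 - C (95 / 124 : ℂ) * v)
        - beta w 6 3 4 (v - C (3 / 4 : ℂ) * U2) (C (95 / 93 : ℂ) * v) := by
    simp only [beta, hv, Finset.sum_range_succ, Finset.sum_range_zero, map_sub, coeff_C_mul, z2, z4,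
      v12, v14, v22, v24]
    ring
  have dM : Dd w 3 U0 + 361 / 186 * Dd w 3 (U1 - C (2 / 19 : ℂ) * G0) + 3 * Dd w 3 U2
      + 3 * Dd w 3 (v - C (3 / 4 : ℂ) * U2)
      = ∑ j ∈ range 3, (PMc (coeff j U0) (coeff j U1) (coeff j U2) (coeff j G0)
        - PMc (coeff j (w * U0)) (coeff j (w * U1)) (coeff j (w * U2)) (coeff j (w * G0))) := by
    simp only [Dd_eq, Finset.mul_sum, ← Finset.sum_add_distrib]
    refine Finset.sum_congr rfl fun j _ => ?_
    simp only [PMc, hv, mul_sub w, mul_left_comm w (C _), map_sub, coeff_C_mul]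
    ring
  have dL : Dd w 4 U0 + 361 / 186 * Dd w 4 (U1 - C (2 / 19 : ℂ) * G0)
      + Dd w 4 (C (817 / 250 : ℂ) * U2 - C (19 / 50 : ℂ) * G1 - C (95 / 124 : ℂ) * v) / 3
      + Dd w 4 (C (95 / 93 : ℂ) * v) / 3
      = ∑ j ∈ range 4, (PLc (coeff j U0) (coeff j U1) (coeff j U2) (coeff j G0) (coeff j G1)
        - PLc (coeff j (w * U0)) (coeff j (w * U1)) (coeff j (w * U2)) (coeff j (w * G0))
          (coeff j (w * G1))) := by
    simp only [Dd_eq, Finset.mul_sum, Finset.sum_div, ← Finset.sum_add_distrib]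
    refine Finset.sum_congr rfl fun j _ => ?_
    simp only [PLc, hv, mul_sub w, mul_left_comm w (C _), map_sub, coeff_C_mul]
    ring
  have t1 : PMc 1 0 0 0 = 1 := by simp [PMc]
  have t2 : PMc 0 0 0 0 = 0 := by simp [PMc]
  have t3 : PLc 1 0 0 0 0 = 1 := by simp [PLc]
  have t4 : PLc 0 0 0 0 0 = 0 := by simp [PLc]
  simp only [Finset.sum_range_succ, Finset.sum_range_zero, z0, z1, z2, z3, z4,
    coeff_zero_mul_left w0, t1, t2, t3, t4, x11, x12, x13, x14, v10, v11, v12, v13, v14, x22, x23,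
    x24, v20, v21, v22, v23, v24, x34, v30, v31, v32, v33, v34] at dM dL
  rw [e]
  have n1 := fun x y z u : ℂ => (norm_sub_le (x + y + z) u).trans
    (add_le_add_left (norm_add₃_le (a := x) (b := y) (c := z)) _)
  refine (n1 _ _ _ _).trans ?_
  have n2 : ‖(361 / 186 : ℂ)‖ = 361 / 186 := by simp
  rw [norm_mul, n2]
  linarith

theorem bound_six (h0 : 0 < a) (ha : a ^ 2 = 10 / 67) (hw : Contr w) {F : ℂ⟦X⟧}
    (hF0 : coeff 0 F = 1) (hF : X * d⁄dX ℂ F = (2 * C (a : ℂ) * KK a w) * F) :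
    ‖coeff 6 (KK a w * F)‖ ≤ 1 := by
  have w0 := hw.1
  obtain ⟨S, Y, S0, Y0, hS, hY, hG⟩ := sys h0 w0 hF0 hF 6
  obtain ⟨l1, hl1⟩ : ∃ l1 : ℝ, l1 = 3 * a / (1 + a) := ⟨_, rfl⟩
  obtain ⟨l2, hl2⟩ : ∃ l2 : ℝ, l2 = 15 * a ^ 2 / ((1 + a) * (2 + a)) := ⟨_, rfl⟩
  have p1 : 1 + a ≠ 0 := by positivity
  have p2 : 2 + a ≠ 0 := by positivity
  have k1 : Au a 0 = a * (19 / 10 * l1) := by
    rw [Au_zero, hl1]
    field_simp
    linear_combination (-67) * ha
  have k2 : l1 * Cd a 1 = a := by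
    rw [hl1, Cd]
    push_cast
    field_simp
    ring
  have k3 : l1 * Au a 1 = a * (43 / 25 * l2) := by
    rw [hl1, hl2, Au]
    push_cast
    field_simp
    linear_combination (-2010) * ha
  have k4 : l2 * Cd a 2 = a * l1 := by
    rw [hl1, hl2, Cd]
    push_cast
    field_simp
    ring
  have b1 := pw_bal h0 0
  have b2 := pw_bal h0 1
  have q1 := Cd_pos h0 1
  have q2 := Cd_pos h0 2
  have k5 : pw a 1 = 19 / 10 * l1 ^ 2 := by
    apply mul_right_cancel₀ q1.ne'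
    rw [zero_add, pw_zero, k1] at b1
    linear_combination b1 - 19 / 10 * l1 * k2
  have k6 : pw a 2 = 817 / 250 * l2 ^ 2 := by
    apply mul_right_cancel₀ q2.ne'
    rw [k5] at b2
    linear_combination b2 + 19 / 10 * l1 * k3 - 817 / 250 * l2 * k4
  have K1 : ((Au a 0 : ℝ) : ℂ) = a * (19 / 10 * l1) := by rw [k1]; push_cast; ring
  have K2 : (l1 : ℂ) * Cd a 1 = a := by exact_mod_cast k2
  have K3 : (l1 : ℂ) * Au a 1 = a * (43 / 25 * l2) := by
    have := congrArg Complex.ofReal k3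
    push_cast at this
    exact this
  have K4 : (l2 : ℂ) * Cd a 2 = a * l1 := by exact_mod_cast k4
  have K5 : ((pw a 1 : ℝ) : ℂ) = 19 / 10 * l1 ^ 2 := by rw [k5]; push_cast; ring
  have K6 : ((pw a 2 : ℝ) : ℂ) = 817 / 250 * l2 ^ 2 := by rw [k6]; push_cast; ring
  have core := six_core hw ha (BB a w 0 * S) (C (l1 : ℂ) * (BB a w 1 * S))
    (C (l2 : ℂ) * (BB a w 2 * S)) (BB a w 0 * Y) (C (l1 : ℂ) * (BB a w 1 * Y))
    (by simp [coeff_zero_BB_mul a w0, S0]) (by simp [coeff_C_mul, coeff_zero_BB_mul a w0])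
    (by simp [coeff_C_mul, coeff_zero_BB_mul a w0]) (by simp [coeff_zero_BB_mul a w0, Y0])
    (by simp [coeff_C_mul, coeff_zero_BB_mul a w0])
    (fun n h1 _ => by
      rw [coeff_BB_mul a w0 S n 0, if_pos rfl, hS n h1]
      simp only [Tr, mul_left_comm w (C _), coeff_C_mul, K1, Cd_zero, Nat.zero_sub, zero_add]
      push_cast
      ring)
    (fun n _ => by
      rw [coeff_C_mul, coeff_BB_mul a w0 S n 1, if_neg one_ne_zero]
      simp only [Tr, mul_left_comm w (C _), coeff_C_mul, Nat.sub_self, Nat.reduceAdd]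
      linear_combination coeff n (w * (BB a w 2 * S)) * K3 + coeff n (w * (BB a w 0 * S)) * K2)
    (fun n h3 => by
      rw [coeff_C_mul, coeff_BB_mul a w0 S n 2, if_neg two_ne_zero]
      simp only [Tr, mul_left_comm w (C _), coeff_C_mul, Nat.reduceSub, Nat.reduceAdd,
        supp1 a w0 S h3]
      linear_combination coeff n (w * (BB a w 1 * S)) * K4)
    (fun n _ => by
      rw [coeff_BB_mul a w0 Y n 0, if_pos rfl, hY n]
      simp only [Tr, mul_left_comm w (C _), coeff_C_mul, K1, Cd_zero, Nat.zero_sub, zero_add]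
      push_cast
      ring)
    (fun n h3 => by
      rw [coeff_C_mul, coeff_BB_mul a w0 Y n 1, if_neg one_ne_zero]
      simp only [Tr, mul_left_comm w (C _), coeff_C_mul, Nat.sub_self, Nat.reduceAdd,
        supp2 a w0 Y0 (k := 2) h3]
      linear_combination coeff n (w * (BB a w 0 * Y)) * K2)
  have zz : ∀ x y : ℂ⟦X⟧, (∀ j < 3, coeff j x = 0) → beta w 6 3 4 x y = 0 := fun x y h =>
    Finset.sum_eq_zero fun j hj => Finset.sum_eq_zero fun l _ => by
      rw [h j (Finset.mem_range.1 hj), mul_zero, zero_mul]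
  have zS : ∀ k, 3 ≤ k → beta w 6 3 4 (BB a w k * S) (BB a w k * S) = 0 := fun k hk =>
    zz _ _ fun j hj => by
      rw [coeff_BB_mul a w0, if_neg (by omega), Tr, supp1 a w0 S (by omega),
        supp1 a w0 S (by omega)]
      simp
  have zY : ∀ k, 2 ≤ k → beta w 6 3 4 (BB a w k * Y) (BB a w k * Y) = 0 := fun k hk =>
    zz _ _ fun j hj => by
      rw [coeff_BB_mul a w0, if_neg (by omega), Tr, supp2 a w0 Y0 (by omega),
        supp2 a w0 Y0 (by omega)]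
      simp
  have sc : ∀ (c : ℂ) (x : ℂ⟦X⟧), beta w 6 3 4 (C c * x) (C c * x) = c ^ 2 * beta w 6 3 4 x x := by
    intro c x
    simp only [beta, coeff_C_mul, Finset.mul_sum]
    refine Finset.sum_congr rfl fun j _ => Finset.sum_congr rfl fun l _ => ?_
    ring
  rw [← hG 3 3 (by norm_num) rfl]
  rw [sc, sc, sc] at core
  refine le_of_eq_of_le (congrArg norm ?_) core
  simp only [Finset.sum_range_succ, Finset.sum_range_zero, Nat.reduceAdd, zS 3 le_rfl,
    zS 4 (by norm_num), zS 5 (by norm_num), zS 6 (by norm_num), zY 2 le_rfl, zY 3 (by norm_num),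
    zY 4 (by norm_num), zY 5 (by norm_num), zY 6 (by norm_num), pw_zero, K5, K6]
  push_cast
  ring

end Pool.Agent.P.MP_bdc337_an.RR
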