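import Pool.Agent.P.MP_bdc337_an.RR.G

/-! The order five and order six coefficients at the end point. -/

set_option autoImplicit false

open Finset PowerSeries

namespace Pool.Agent.P.MP_bdc337_an.RR

variable {a : ℝ} {w : ℂ⟦X⟧}

lemma scaled (h0 : 0 < a) (w0 : coeff 0 w = 0) {F : ℂ⟦X⟧} (hF0 : coeff 0 F = 1)
    (hF : X * d⁄dX ℂ F = (2 * C (a : ℂ) * KK a w) * F) {N M L : ℕ} {p al : ℝ}
    (hp : 1 - a ^ 2 = 3 * a ^ 2 * p) (hal : 4 - a ^ 2 = 15 * a ^ 2 * al) (hN : 2 ≤ N) (hM : 1 ≤ M)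
    (hM3 : M ≤ 3) (hML : M + L = N) :
    ∃ U0 U1 U2 G0 G1 : ℂ⟦X⟧, coeff 0 U0 = 1 ∧ coeff 0 U1 = 0 ∧ coeff 0 U2 = 0 ∧ coeff 0 G0 = 0 ∧
      coeff 0 G1 = 0 ∧
      (∀ n : ℕ, 1 ≤ n → coeff n U0 = a * ((1 / n + 1 / (N - n) + 1) * coeff n (w * U0)
        - 1 / n * coeff n (w * G0) + p * coeff n (w * U1))) ∧
      (∀ n : ℕ, coeff n U1 = a * (coeff n (w * U0) + al * coeff n (w * U2))) ∧
      (∀ n : ℕ, n ≤ 3 → coeff n U2 = a * coeff n (w * U1)) ∧
      (∀ n : ℕ, coeff n G0 = a * (1 / (N - n) * coeff n (w * U0) + coeff n (w * G0)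
        + p * coeff n (w * G1))) ∧
      (∀ n : ℕ, n ≤ 3 → coeff n G1 = a * coeff n (w * G0)) ∧
      coeff N (KK a w * F) = beta w N M (L + 1) U0 U0 + p * beta w N M (L + 1) U1 U1
        + p * al * beta w N M (L + 1) U2 U2 - beta w N M (L + 1) G0 G0
        - p * beta w N M (L + 1) G1 G1 := by
  obtain ⟨S, Y, S0, Y0, hS, hY, hG⟩ := sys h0 w0 hF0 hF N
  obtain ⟨l1, hl1⟩ : ∃ l1 : ℝ, l1 = 3 * a / (1 + a) := ⟨_, rfl⟩
  obtain ⟨l2, hl2⟩ : ∃ l2 : ℝ, l2 = 15 * a ^ 2 / ((1 + a) * (2 + a)) := ⟨_, rfl⟩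
  have p1 : 1 + a ≠ 0 := by positivity
  have p2 : 2 + a ≠ 0 := by positivity
  have k1 : Au a 0 = a * (p * l1) := by
    rw [Au_zero, hl1]
    field_simp
    linear_combination hp
  have k2 : l1 * Cd a 1 = a := by
    rw [hl1, Cd]
    push_cast
    field_simp
    ring
  have k3 : l1 * Au a 1 = a * (al * l2) := by
    rw [hl1, hl2, Au]
    push_cast
    field_simp
    linear_combination 3 * hal
  have k4 : l2 * Cd a 2 = a * l1 := by
    rw [hl1, hl2, Cd]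
    push_cast
    field_simp
    ring
  have b1 := pw_bal h0 0
  have b2 := pw_bal h0 1
  have q1 := Cd_pos h0 1
  have q2 := Cd_pos h0 2
  have k5 : pw a 1 = p * l1 ^ 2 := by
    apply mul_right_cancel₀ q1.ne'
    rw [zero_add, pw_zero, k1] at b1
    linear_combination b1 - p * l1 * k2
  have k6 : pw a 2 = p * al * l2 ^ 2 := by
    apply mul_right_cancel₀ q2.ne'
    rw [k5] at b2
    linear_combination b2 + p * l1 * k3 - p * al * l2 * k4
  have K1 : ((Au a 0 : ℝ) : ℂ) = a * (p * l1) := by exact_mod_cast k1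
  have K2 : (l1 : ℂ) * Cd a 1 = a := by exact_mod_cast k2
  have K3 : (l1 : ℂ) * Au a 1 = a * (al * l2) := by exact_mod_cast k3
  have K4 : (l2 : ℂ) * Cd a 2 = a * l1 := by exact_mod_cast k4
  have K5 : ((pw a 1 : ℝ) : ℂ) = p * l1 ^ 2 := by exact_mod_cast k5
  have K6 : ((pw a 2 : ℝ) : ℂ) = p * al * l2 ^ 2 := by exact_mod_cast k6
  refine ⟨BB a w 0 * S, C (l1 : ℂ) * (BB a w 1 * S), C (l2 : ℂ) * (BB a w 2 * S), BB a w 0 * Y,
    C (l1 : ℂ) * (BB a w 1 * Y), by simp [coeff_zero_BB_mul a w0, S0],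
    by simp [coeff_C_mul, coeff_zero_BB_mul a w0], by simp [coeff_C_mul, coeff_zero_BB_mul a w0],
    by simp [coeff_zero_BB_mul a w0, Y0], by simp [coeff_C_mul, coeff_zero_BB_mul a w0],
    fun n h1 => ?_, fun n => ?_, fun n h3 => ?_, fun n => ?_, fun n h3 => ?_, ?_⟩
  · rw [coeff_BB_mul a w0 S n 0, if_pos rfl, hS n h1]
    simp only [Tr, mul_left_comm w (C _), coeff_C_mul, K1, Cd_zero, Nat.zero_sub, zero_add]
    push_cast
    ring
  · rw [coeff_C_mul, coeff_BB_mul a w0 S n 1, if_neg one_ne_zero]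
    simp only [Tr, mul_left_comm w (C _), coeff_C_mul, Nat.sub_self, Nat.reduceAdd]
    linear_combination coeff n (w * (BB a w 2 * S)) * K3 + coeff n (w * (BB a w 0 * S)) * K2
  · rw [coeff_C_mul, coeff_BB_mul a w0 S n 2, if_neg two_ne_zero]
    simp only [Tr, mul_left_comm w (C _), coeff_C_mul, Nat.reduceSub, Nat.reduceAdd,
      supp1 a w0 S h3]
    linear_combination coeff n (w * (BB a w 1 * S)) * K4
  · rw [coeff_BB_mul a w0 Y n 0, if_pos rfl, hY n]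
    simp only [Tr, mul_left_comm w (C _), coeff_C_mul, K1, Cd_zero, Nat.zero_sub, zero_add]
    push_cast
    ring
  · rw [coeff_C_mul, coeff_BB_mul a w0 Y n 1, if_neg one_ne_zero]
    simp only [Tr, Nat.sub_self, Nat.reduceAdd, supp2 a w0 Y0 (k := 2) h3]
    linear_combination coeff n (w * (BB a w 0 * Y)) * K2
  have zz : ∀ x y : ℂ⟦X⟧, (∀ j < 3, coeff j x = 0) → beta w N M (L + 1) x y = 0 := fun x y h =>
    Finset.sum_eq_zero fun j hj => Finset.sum_eq_zero fun l _ => by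
      rw [h j ((Finset.mem_range.1 hj).trans_le hM3), mul_zero, zero_mul]
  have zS : ∀ k, 3 ≤ k → beta w N M (L + 1) (BB a w k * S) (BB a w k * S) = 0 := fun k hk =>
    zz _ _ fun j hj => by
      rw [coeff_BB_mul a w0, if_neg (by omega), Tr, supp1 a w0 S (by omega),
        supp1 a w0 S (by omega)]
      simp
  have zY : ∀ k, 2 ≤ k → beta w N M (L + 1) (BB a w k * Y) (BB a w k * Y) = 0 := fun k hk =>
    zz _ _ fun j hj => by
      rw [coeff_BB_mul a w0, if_neg (by omega), Tr, supp2 a w0 Y0 (by omega),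
        supp2 a w0 Y0 (by omega)]
      simp
  have sc : ∀ (c : ℂ) (x : ℂ⟦X⟧),
      beta w N M (L + 1) (C c * x) (C c * x) = c ^ 2 * beta w N M (L + 1) x x := by
    intro c x
    simp only [beta, coeff_C_mul, Finset.mul_sum]
    refine Finset.sum_congr rfl fun j _ => Finset.sum_congr rfl fun l _ => ?_
    ring
  rw [← hG L M hM hML, sc, sc, sc,
    ← Finset.sum_subset (Finset.range_subset_range.2 (by omega : 3 ≤ N + 1)) fun k _ hk => by
      have : 3 ≤ k := by simpa using hk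
      rw [zS k this, zY k (by omega), sub_self, mul_zero]]
  simp only [Finset.sum_range_succ, Finset.sum_range_zero, zY 2 le_rfl, pw_zero, K5, K6]
  push_cast
  ring

lemma cc1 (w0 : coeff 0 w = 0) (x : ℂ⟦X⟧) : coeff 1 (w * x) = coeff 1 w * coeff 0 x := by
  rw [coeff_conv w0 x (le_refl 1)]
  simp

lemma cc2 (w0 : coeff 0 w = 0) (x : ℂ⟦X⟧) :
    coeff 2 (w * x) = coeff 2 w * coeff 0 x + coeff 1 w * coeff 1 x := by
  rw [coeff_conv w0 x (le_refl 2)]
  simp only [Finset.sum_range_succ, Finset.sum_range_zero, zero_add]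

lemma nsq_mul (c : ℝ) (z : ℂ) : ‖(c : ℂ) * z‖ ^ 2 = c ^ 2 * ‖z‖ ^ 2 := by
  rw [norm_mul, mul_pow, Complex.norm_real, Real.norm_eq_abs, sq_abs]

lemma f1 (p : ℂ) : 2 / 15 * (2 * ‖7 / 3 * p‖ ^ 2 + 37 / 18 * ‖p‖ ^ 2
    + ‖13 / 6 * p - 1 / 3 * (1 / 3 * p)‖ ^ 2 / (37 / 18)) ≤ 2 * ‖p‖ ^ 2 := by
  simp only [nsq_ri, Complex.sub_re, Complex.sub_im, Complex.mul_re, Complex.mul_im,
    Complex.div_ofNat_re, Complex.div_ofNat_im, Complex.re_ofNat, Complex.im_ofNat, Complex.one_re,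
    Complex.one_im]
  linarith

lemma f2 (p q : ℂ) : 2 / 15 * (‖2 * p + 2 * q‖ ^ 2
    + ‖13 / 6 * p - 1 / 3 * (1 / 2 * p + 1 / 3 * q)‖ ^ 2 / (37 / 18))
    ≤ ‖p‖ ^ 2 + ‖13 / 6 * q - 1 / 3 * (1 / 3 * q)‖ ^ 2 / (37 / 18) := by
  have h : ∀ p q : ℝ, (0 : ℝ) ≤ (23 / 111) * (p + (-288 / 115) * q) ^ 2 + (6889 / 31050) * q ^ 2 :=
    fun p q => by positivity
  simp only [nsq_ri, Complex.sub_re, Complex.sub_im, Complex.mul_re, Complex.mul_im,
    Complex.div_ofNat_re, Complex.div_ofNat_im, Complex.re_ofNat, Complex.im_ofNat, Complex.one_re,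
    Complex.one_im, Complex.add_re, Complex.add_im]
  linarith [h p.re q.re, h p.im q.im]

theorem bound_four (h0 : 0 < a) (ha : a ^ 2 = 2 / 15) (hw : Contr w) {F : ℂ⟦X⟧}
    (hF0 : coeff 0 F = 1) (hF : X * d⁄dX ℂ F = (2 * C (a : ℂ) * KK a w) * F) :
    ‖coeff 4 (KK a w * F)‖ ≤ 1 := by
  have w0 := hw.1
  obtain ⟨U0, U1, U2, G0, G1, z0, z1, z2, z3, z4, r0, r1, r2, r3, r4, hG⟩ :=
    scaled h0 w0 hF0 hF (N := 4) (M := 2) (L := 2) (p := 13 / 6) (al := 29 / 15)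
      (by rw [ha]; norm_num) (by rw [ha]; norm_num) (by norm_num) (by norm_num) (by norm_num) rfl
  have x11 : coeff 1 (w * U1) = 0 := by rw [cc1 w0, z1, mul_zero]
  have x12 : coeff 1 (w * U2) = 0 := by rw [cc1 w0, z2, mul_zero]
  have x13 : coeff 1 (w * G0) = 0 := by rw [cc1 w0, z3, mul_zero]
  have x14 : coeff 1 (w * G1) = 0 := by rw [cc1 w0, z4, mul_zero]
  have v10 : coeff 1 U0 = a * (7 / 3 * coeff 1 (w * U0)) := by
    rw [r0 1 le_rfl, x11, x13]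
    push_cast
    ring
  have v11 : coeff 1 U1 = a * coeff 1 (w * U0) := by
    rw [r1 1, x12]
    ring
  have v12 : coeff 1 U2 = 0 := by rw [r2 1 (by norm_num), x11, mul_zero]
  have v13 : coeff 1 G0 = a * (1 / 3 * coeff 1 (w * U0)) := by
    rw [r3 1, x13, x14]
    push_cast
    ring
  have v14 : coeff 1 G1 = 0 := by rw [r4 1 (by norm_num), x13, mul_zero]
  have x22 : coeff 2 (w * U2) = 0 := by rw [cc2 w0, z2, v12]; ring
  have x23 : coeff 2 (w * G0) = 1 / 3 * coeff 2 (w * U1) := by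
    rw [cc2 w0, cc2 w0, z3, z1, v13, v11]
    ring
  have x24 : coeff 2 (w * G1) = 0 := by rw [cc2 w0, z4, v14]; ring
  have v20 : coeff 2 U0 = a * (2 * coeff 2 (w * U0) + 2 * coeff 2 (w * U1)) := by
    rw [r0 2 (by norm_num), x23]
    push_cast
    ring
  have v21 : coeff 2 U1 = a * coeff 2 (w * U0) := by
    rw [r1 2, x22]
    ring
  have v23 : coeff 2 G0 = a * (1 / 2 * coeff 2 (w * U0) + 1 / 3 * coeff 2 (w * U1)) := by
    rw [r3 2, x23, x24]
    push_cast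
    ring
  have s1 := f1 (coeff 1 (w * U0))
  have s2 := f2 (coeff 2 (w * U0)) (coeff 2 (w * U1))
  have m0 := mm hw (N := 4) (M := 2) (L := 3) rfl (by norm_num) (by norm_num) U0 U0
  have m1 := mm_weighted hw (N := 4) (M := 2) (L := 3) rfl (by norm_num) (by norm_num) U1
    (C (13 / 6 : ℂ) * U1 - C (1 / 3 : ℂ) * G0) (mu := 37 / 18) (by norm_num)
  have e : coeff 4 (KK a w * F) = beta w 4 2 3 U0 U0
      + beta w 4 2 3 U1 (C (13 / 6 : ℂ) * U1 - C (1 / 3 : ℂ) * G0) := by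
    rw [hG]
    simp only [beta, Finset.sum_range_succ, Finset.sum_range_zero, map_sub, coeff_C_mul, z1, z2, z3,
      z4, v11, v12, v13, v14]
    push_cast
    ring
  have lc : ∀ x y c d : ℂ, c * (a * x) - d * (a * y) = a * (c * x - d * y) := fun x y c d => by ring
  simp only [Dd_eq, Finset.sum_range_succ, Finset.sum_range_zero, mul_sub w, mul_left_comm w (C _),
    map_sub, coeff_C_mul, z0, z1, z3, coeff_zero_mul_left w0, x11, x13, x23, v10, v11, v13, v20,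
    v21, v23, lc, nsq_mul, ha, mul_zero, sub_zero, norm_zero, norm_one] at m0 m1
  rw [e]
  refine (norm_add_le _ _).trans ?_
  linarith

lemma g1 (p : ℂ) : 1 / 7 * (2 * ‖9 / 4 * p‖ ^ 2 + 128 / 31 * ‖p - 1 / 8 * (1 / 4 * p)‖ ^ 2)
    ≤ 2 * ‖p‖ ^ 2 := by
  simp only [nsq_ri, Complex.sub_re, Complex.sub_im, Complex.mul_re, Complex.mul_im,
    Complex.div_ofNat_re, Complex.div_ofNat_im, Complex.re_ofNat, Complex.im_ofNat, Complex.one_re,
    Complex.one_im]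
  linarith

lemma g2 (p q : ℂ) : 1 / 7 * (2 * ‖11 / 6 * p + 15 / 8 * q‖ ^ 2
    + 128 / 31 * ‖p - 1 / 8 * (1 / 3 * p + 1 / 4 * q)‖ ^ 2 + 3 * ‖q‖ ^ 2
    + ‖1 / 12 * p + 1 / 4 * q - q‖ ^ 2
    + ‖139 / 40 * q - 32 / 31 * (1 / 12 * p + 1 / 4 * q)‖ ^ 2 / 3
    + ‖32 / 31 * (1 / 12 * p + 1 / 4 * q)‖ ^ 2)
    ≤ 2 * ‖p‖ ^ 2 + 128 / 31 * ‖q - 1 / 8 * (1 / 4 * q)‖ ^ 2 := by
  have h : ∀ p q : ℝ, (0 : ℝ) ≤ (1440101 / 2906064) * (p + (-13739043 / 7200505) * q) ^ 2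
      + (176014379 / 3225826240) * q ^ 2 := fun p q => by positivity
  simp only [nsq_ri, Complex.sub_re, Complex.sub_im, Complex.mul_re, Complex.mul_im,
    Complex.div_ofNat_re, Complex.div_ofNat_im, Complex.re_ofNat, Complex.im_ofNat, Complex.one_re,
    Complex.one_im, Complex.add_re, Complex.add_im]
  linarith [h p.re q.re, h p.im q.im]

theorem bound_five (h0 : 0 < a) (ha : a ^ 2 = 1 / 7) (hw : Contr w) {F : ℂ⟦X⟧}
    (hF0 : coeff 0 F = 1) (hF : X * d⁄dX ℂ F = (2 * C (a : ℂ) * KK a w) * F) :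
    ‖coeff 5 (KK a w * F)‖ ≤ 1 := by
  have w0 := hw.1
  obtain ⟨U0, U1, U2, G0, G1, z0, z1, z2, z3, z4, r0, r1, r2, r3, r4, hG⟩ :=
    scaled h0 w0 hF0 hF (N := 5) (M := 3) (L := 2) (p := 2) (al := 9 / 5)
      (by rw [ha]; norm_num) (by rw [ha]; norm_num) (by norm_num) (by norm_num) (by norm_num) rfl
  have x11 : coeff 1 (w * U1) = 0 := by rw [cc1 w0, z1, mul_zero]
  have x12 : coeff 1 (w * U2) = 0 := by rw [cc1 w0, z2, mul_zero]
  have x13 : coeff 1 (w * G0) = 0 := by rw [cc1 w0, z3, mul_zero]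
  have x14 : coeff 1 (w * G1) = 0 := by rw [cc1 w0, z4, mul_zero]
  have v10 : coeff 1 U0 = a * (9 / 4 * coeff 1 (w * U0)) := by
    rw [r0 1 le_rfl, x11, x13]
    push_cast
    ring
  have v11 : coeff 1 U1 = a * coeff 1 (w * U0) := by
    rw [r1 1, x12]
    ring
  have v12 : coeff 1 U2 = 0 := by rw [r2 1 (by norm_num), x11, mul_zero]
  have v13 : coeff 1 G0 = a * (1 / 4 * coeff 1 (w * U0)) := by
    rw [r3 1, x13, x14]
    push_cast
    ring
  have v14 : coeff 1 G1 = 0 := by rw [r4 1 (by norm_num), x13, mul_zero]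
  have x22 : coeff 2 (w * U2) = 0 := by rw [cc2 w0, z2, v12]; ring
  have x23 : coeff 2 (w * G0) = 1 / 4 * coeff 2 (w * U1) := by
    rw [cc2 w0, cc2 w0, z3, z1, v13, v11]
    ring
  have x24 : coeff 2 (w * G1) = 0 := by rw [cc2 w0, z4, v14]; ring
  have v20 : coeff 2 U0 = a * (11 / 6 * coeff 2 (w * U0) + 15 / 8 * coeff 2 (w * U1)) := by
    rw [r0 2 (by norm_num), x23]
    push_cast
    ring
  have v21 : coeff 2 U1 = a * coeff 2 (w * U0) := by
    rw [r1 2, x22]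
    ring
  have v22 : coeff 2 U2 = a * coeff 2 (w * U1) := r2 2 (by norm_num)
  have v23 : coeff 2 G0 = a * (1 / 3 * coeff 2 (w * U0) + 1 / 4 * coeff 2 (w * U1)) := by
    rw [r3 2, x23, x24]
    push_cast
    ring
  have v24 : coeff 2 G1 = a * (1 / 4 * coeff 2 (w * U1)) := by rw [r4 2 (by norm_num), x23]
  obtain ⟨v, hv⟩ : ∃ v, v = G0 - C (1 / 4 : ℂ) * U1 := ⟨_, rfl⟩
  have y0 : coeff 0 v = 0 := by rw [hv, map_sub, coeff_C_mul, z1, z3]; ring
  have y1 : coeff 1 v = 0 := by rw [hv, map_sub, coeff_C_mul, v11, v13]; ring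
  have y2 : coeff 2 v = a * (1 / 12 * coeff 2 (w * U0) + 1 / 4 * coeff 2 (w * U1)) := by
    rw [hv, map_sub, coeff_C_mul, v21, v23]
    ring
  have y3 : coeff 1 (w * v) = 0 := by rw [cc1 w0, y0, mul_zero]
  have y4 : coeff 2 (w * v) = 0 := by rw [cc2 w0, y0, y1]; ring
  have s1 := g1 (coeff 1 (w * U0))
  have s2 := g2 (coeff 2 (w * U0)) (coeff 2 (w * U1))
  have m0 := mm hw (N := 5) (M := 3) (L := 3) rfl (by norm_num) (by norm_num) U0 U0
  have m1 := mm hw (N := 5) (M := 3) (L := 3) rfl (by norm_num) (by norm_num)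
    (U1 - C (1 / 8 : ℂ) * G0) (U1 - C (1 / 8 : ℂ) * G0)
  have m2 := mm_weighted hw (N := 5) (M := 3) (L := 3) rfl (by norm_num) (by norm_num) U2
    (C (139 / 40 : ℂ) * U2 - C (32 / 31 : ℂ) * v) (mu := 3) (by norm_num)
  have m3 := mm hw (N := 5) (M := 3) (L := 3) rfl (by norm_num) (by norm_num)
    (v - U2) (C (32 / 31 : ℂ) * v)
  have e : coeff 5 (KK a w * F) = beta w 5 3 3 U0 U0
      + 64 / 31 * beta w 5 3 3 (U1 - C (1 / 8 : ℂ) * G0) (U1 - C (1 / 8 : ℂ) * G0)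
      + beta w 5 3 3 U2 (C (139 / 40 : ℂ) * U2 - C (32 / 31 : ℂ) * v)
      - beta w 5 3 3 (v - U2) (C (32 / 31 : ℂ) * v) := by
    rw [hG]
    simp only [beta, hv, Finset.sum_range_succ, Finset.sum_range_zero, map_sub, coeff_C_mul, z2, z4,
      v12, v14, v22, v24]
    push_cast
    ring
  have lc : ∀ x y c d : ℂ, c * (a * x) - d * (a * y) = a * (c * x - d * y) := fun x y c d => by ring
  have ld : ∀ x y d : ℂ, a * x - d * (a * y) = a * (x - d * y) := fun x y d => by ring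
  have le : ∀ x y : ℂ, a * x - a * y = a * (x - y) := fun x y => by ring
  have lf : ∀ x : ℂ, 32 / 31 * (a * x) = a * (32 / 31 * x) := fun x => by ring
  simp only [Dd_eq, Finset.sum_range_succ, Finset.sum_range_zero, mul_sub w, mul_left_comm w (C _),
    map_sub, coeff_C_mul, z0, z1, z2, z3, coeff_zero_mul_left w0, x11, x12, x13, x22, x23, v10, v11,
    v12, v13, v20, v21, v22, v23, y0, y1, y2, y3, y4, lc, ld, le, mul_zero, sub_zero,
    norm_zero, norm_one] at m0 m1 m2 m3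
  simp only [lf, nsq_mul, ha] at m0 m1 m2 m3
  rw [e]
  have n1 := fun x y z u : ℂ => (norm_sub_le (x + y + z) u).trans
    (add_le_add_left (norm_add₃_le (a := x) (b := y) (c := z)) _)
  refine (n1 _ _ _ _).trans ?_
  have n2 : ‖(64 / 31 : ℂ)‖ = 64 / 31 := by simp
  rw [norm_mul, n2]
  linarith

end Pool.Agent.P.MP_bdc337_an.RR
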