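import Pool.Agent.P.MP_bdc337_an.RR.R0

/-! The finite range, rows 7 to 70. -/

set_option autoImplicit false

namespace Pool.Agent.P.MP_bdc337_an.RR

theorem r7 : rowq 7 = true := by decide +kernel
theorem r8 : rowq 8 = true := by decide +kernel
theorem r9 : rowq 9 = true := by decide +kernel
theorem r10 : rowq 10 = true := by decide +kernel
theorem r11 : rowq 11 = true := by decide +kernel
theorem r12 : rowq 12 = true := by decide +kernel
theorem r13 : rowq 13 = true := by decide +kernel
theorem r14 : rowq 14 = true := by decide +kernel
theorem r15 : rowq 15 = true := by decide +kernel
theorem r16 : rowq 16 = true := by decide +kernel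
theorem r17 : rowq 17 = true := by decide +kernel
theorem r18 : rowq 18 = true := by decide +kernel
theorem r19 : rowq 19 = true := by decide +kernel
theorem r20 : rowq 20 = true := by decide +kernel
theorem r21 : rowq 21 = true := by decide +kernel
theorem r22 : rowq 22 = true := by decide +kernel
theorem r23 : rowq 23 = true := by decide +kernel
theorem r24 : rowq 24 = true := by decide +kernel
theorem r25 : rowq 25 = true := by decide +kernel
theorem r26 : rowq 26 = true := by decide +kernel
theorem r27 : rowq 27 = true := by decide +kernel
theorem r28 : rowq 28 = true := by decide +kernel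
theorem r29 : rowq 29 = true := by decide +kernel
theorem r30 : rowq 30 = true := by decide +kernel
theorem r31 : rowq 31 = true := by decide +kernel
theorem r32 : rowq 32 = true := by decide +kernel
theorem r33 : rowq 33 = true := by decide +kernel
theorem r34 : rowq 34 = true := by decide +kernel
theorem r35 : rowq 35 = true := by decide +kernel
theorem r36 : rowq 36 = true := by decide +kernel
theorem r37 : rowq 37 = true := by decide +kernel
theorem r38 : rowq 38 = true := by decide +kernel
theorem r39 : rowq 39 = true := by decide +kernel
theorem r40 : rowq 40 = true := by decide +kernel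
theorem r41 : rowq 41 = true := by decide +kernel
theorem r42 : rowq 42 = true := by decide +kernel
theorem r43 : rowq 43 = true := by decide +kernel
theorem r44 : rowq 44 = true := by decide +kernel
theorem r45 : rowq 45 = true := by decide +kernel
theorem r46 : rowq 46 = true := by decide +kernel
theorem r47 : rowq 47 = true := by decide +kernel
theorem r48 : rowq 48 = true := by decide +kernel
theorem r49 : rowq 49 = true := by decide +kernel
theorem r50 : rowq 50 = true := row_split 50 11 (by decide +kernel) (by decide +kernel)
theorem r51 : rowq 51 = true := row_split 51 11 (by decide +kernel) (by decide +kernel)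
theorem r52 : rowq 52 = true := row_split 52 12 (by decide +kernel) (by decide +kernel)
theorem r53 : rowq 53 = true := row_split 53 12 (by decide +kernel) (by decide +kernel)
theorem r54 : rowq 54 = true := row_split 54 12 (by decide +kernel) (by decide +kernel)
theorem r55 : rowq 55 = true := row_split 55 12 (by decide +kernel) (by decide +kernel)
theorem r56 : rowq 56 = true := row_split 56 13 (by decide +kernel) (by decide +kernel)
theorem r57 : rowq 57 = true := row_split 57 13 (by decide +kernel) (by decide +kernel)
theorem r58 : rowq 58 = true := row_split 58 13 (by decide +kernel) (by decide +kernel)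
theorem r59 : rowq 59 = true := row_split 59 13 (by decide +kernel) (by decide +kernel)
theorem r60 : rowq 60 = true := row_split 60 14 (by decide +kernel) (by decide +kernel)
theorem r61 : rowq 61 = true := row_split 61 14 (by decide +kernel) (by decide +kernel)
theorem r62 : rowq 62 = true := row_split 62 14 (by decide +kernel) (by decide +kernel)
theorem r63 : rowq 63 = true := row_split 63 14 (by decide +kernel) (by decide +kernel)
theorem r64 : rowq 64 = true := row_split 64 15 (by decide +kernel) (by decide +kernel)
theorem r65 : rowq 65 = true := row_split 65 15 (by decide +kernel) (by decide +kernel)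
theorem r66 : rowq 66 = true := row_split 66 15 (by decide +kernel) (by decide +kernel)
theorem r67 : rowq 67 = true := row_split 67 15 (by decide +kernel) (by decide +kernel)
theorem r68 : rowq 68 = true := row_split 68 16 (by decide +kernel) (by decide +kernel)
theorem r69 : rowq 69 = true := row_split 69 16 (by decide +kernel) (by decide +kernel)
theorem r70 : rowq 70 = true := row_split 70 16 (by decide +kernel) (by decide +kernel)

lemma rows1 {N : ℕ} (h1 : 7 ≤ N) (h2 : N ≤ 70) : rowq N = true := by
  interval_cases N
  exacts [r7, r8, r9, r10, r11, r12, r13, r14, r15, r16, r17, r18, r19, r20,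
    r21, r22, r23, r24, r25, r26, r27, r28, r29, r30, r31, r32, r33, r34,
    r35, r36, r37, r38, r39, r40, r41, r42, r43, r44, r45, r46, r47, r48,
    r49, r50, r51, r52, r53, r54, r55, r56, r57, r58, r59, r60, r61, r62,
    r63, r64, r65, r66, r67, r68, r69, r70]

end Pool.Agent.P.MP_bdc337_an.RR
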