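import Pool.Agent.P.MP_bdc337_an.RR.R0

/-! The finite range, rows 71 to 94. -/

set_option autoImplicit false

namespace Pool.Agent.P.MP_bdc337_an.RR

theorem r71 : rowq 71 = true := row_split 71 16 (by decide +kernel) (by decide +kernel)
theorem r72 : rowq 72 = true := row_split 72 17 (by decide +kernel) (by decide +kernel)
theorem r73 : rowq 73 = true := row_split 73 17 (by decide +kernel) (by decide +kernel)
theorem r74 : rowq 74 = true := row_split 74 17 (by decide +kernel) (by decide +kernel)
theorem r75 : rowq 75 = true := row_split 75 17 (by decide +kernel) (by decide +kernel)
theorem r76 : rowq 76 = true := row_split 76 18 (by decide +kernel) (by decide +kernel)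
theorem r77 : rowq 77 = true := row_split 77 18 (by decide +kernel) (by decide +kernel)
theorem r78 : rowq 78 = true := row_split 78 18 (by decide +kernel) (by decide +kernel)
theorem r79 : rowq 79 = true := row_split 79 18 (by decide +kernel) (by decide +kernel)
theorem r80 : rowq 80 = true := row_split 80 19 (by decide +kernel) (by decide +kernel)
theorem r81 : rowq 81 = true := row_split 81 19 (by decide +kernel) (by decide +kernel)
theorem r82 : rowq 82 = true := row_split 82 19 (by decide +kernel) (by decide +kernel)
theorem r83 : rowq 83 = true := row_split 83 19 (by decide +kernel) (by decide +kernel)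
theorem r84 : rowq 84 = true := row_split 84 20 (by decide +kernel) (by decide +kernel)
theorem r85 : rowq 85 = true := row_split 85 20 (by decide +kernel) (by decide +kernel)
theorem r86 : rowq 86 = true := row_split 86 20 (by decide +kernel) (by decide +kernel)
theorem r87 : rowq 87 = true := row_split 87 20 (by decide +kernel) (by decide +kernel)
theorem r88 : rowq 88 = true := row_split 88 21 (by decide +kernel) (by decide +kernel)
theorem r89 : rowq 89 = true := row_split 89 21 (by decide +kernel) (by decide +kernel)
theorem r90 : rowq 90 = true := row_split 90 21 (by decide +kernel) (by decide +kernel)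
theorem r91 : rowq 91 = true := row_split 91 21 (by decide +kernel) (by decide +kernel)
theorem r92 : rowq 92 = true := row_split 92 22 (by decide +kernel) (by decide +kernel)
theorem r93 : rowq 93 = true := row_split 93 22 (by decide +kernel) (by decide +kernel)
theorem r94 : rowq 94 = true := row_split 94 22 (by decide +kernel) (by decide +kernel)

lemma rows2 {N : ℕ} (h1 : 71 ≤ N) (h2 : N ≤ 94) : rowq N = true := by
  interval_cases N
  exacts [r71, r72, r73, r74, r75, r76, r77, r78, r79, r80, r81, r82, r83, r84,
    r85, r86, r87, r88, r89, r90, r91, r92, r93, r94]

end Pool.Agent.P.MP_bdc337_an.RR
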