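import Pool.Agent.P.MP_bdc337_an.RR.R0

/-! The finite range, rows 95 to 112. -/

set_option autoImplicit false

namespace Pool.Agent.P.MP_bdc337_an.RR

theorem r95 : rowq 95 = true := row_split 95 22 (by decide +kernel) (by decide +kernel)
theorem r96 : rowq 96 = true := row_split 96 23 (by decide +kernel) (by decide +kernel)
theorem r97 : rowq 97 = true := row_split 97 23 (by decide +kernel) (by decide +kernel)
theorem r98 : rowq 98 = true := row_split 98 23 (by decide +kernel) (by decide +kernel)
theorem r99 : rowq 99 = true := row_split 99 23 (by decide +kernel) (by decide +kernel)
theorem r100 : rowq 100 = true := row_split 100 24 (by decide +kernel) (by decide +kernel)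
theorem r101 : rowq 101 = true := row_split 101 24 (by decide +kernel) (by decide +kernel)
theorem r102 : rowq 102 = true := row_split 102 24 (by decide +kernel) (by decide +kernel)
theorem r103 : rowq 103 = true := row_split 103 24 (by decide +kernel) (by decide +kernel)
theorem r104 : rowq 104 = true := row_split 104 25 (by decide +kernel) (by decide +kernel)
theorem r105 : rowq 105 = true := row_split 105 25 (by decide +kernel) (by decide +kernel)
theorem r106 : rowq 106 = true := row_split 106 25 (by decide +kernel) (by decide +kernel)
theorem r107 : rowq 107 = true := row_split 107 25 (by decide +kernel) (by decide +kernel)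
theorem r108 : rowq 108 = true := row_split 108 26 (by decide +kernel) (by decide +kernel)
theorem r109 : rowq 109 = true := row_split 109 26 (by decide +kernel) (by decide +kernel)
theorem r110 : rowq 110 = true := row_split 110 26 (by decide +kernel) (by decide +kernel)
theorem r111 : rowq 111 = true := row_split 111 26 (by decide +kernel) (by decide +kernel)
theorem r112 : rowq 112 = true := row_split 112 27 (by decide +kernel) (by decide +kernel)

lemma rows3 {N : ℕ} (h1 : 95 ≤ N) (h2 : N ≤ 112) : rowq N = true := by
  interval_cases N
  exacts [r95, r96, r97, r98, r99, r100, r101, r102, r103, r104, r105, r106, r107, r108,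
    r109, r110, r111, r112]

end Pool.Agent.P.MP_bdc337_an.RR
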