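import Pool.Agent.P.MP_bdc337_an.RR.R0

/-! The finite range, rows 113 to 127. -/

set_option autoImplicit false

namespace Pool.Agent.P.MP_bdc337_an.RR

theorem r113 : rowq 113 = true := row_split 113 27 (by decide +kernel) (by decide +kernel)
theorem r114 : rowq 114 = true := row_split 114 27 (by decide +kernel) (by decide +kernel)
theorem r115 : rowq 115 = true := row_split 115 27 (by decide +kernel) (by decide +kernel)
theorem r116 : rowq 116 = true := row_split 116 28 (by decide +kernel) (by decide +kernel)
theorem r117 : rowq 117 = true := row_split 117 28 (by decide +kernel) (by decide +kernel)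
theorem r118 : rowq 118 = true := row_split 118 28 (by decide +kernel) (by decide +kernel)
theorem r119 : rowq 119 = true := row_split 119 28 (by decide +kernel) (by decide +kernel)
theorem r120 : rowq 120 = true := row_split 120 29 (by decide +kernel) (by decide +kernel)
theorem r121 : rowq 121 = true := row_split 121 29 (by decide +kernel) (by decide +kernel)
theorem r122 : rowq 122 = true := row_split 122 29 (by decide +kernel) (by decide +kernel)
theorem r123 : rowq 123 = true := row_split 123 29 (by decide +kernel) (by decide +kernel)
theorem r124 : rowq 124 = true := row_split 124 30 (by decide +kernel) (by decide +kernel)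
theorem r125 : rowq 125 = true := row_split 125 30 (by decide +kernel) (by decide +kernel)
theorem r126 : rowq 126 = true := row_split 126 30 (by decide +kernel) (by decide +kernel)
theorem r127 : rowq 127 = true := row_split 127 30 (by decide +kernel) (by decide +kernel)

lemma rows4 {N : ℕ} (h1 : 113 ≤ N) (h2 : N ≤ 127) : rowq N = true := by
  interval_cases N
  exacts [r113, r114, r115, r116, r117, r118, r119, r120, r121, r122, r123, r124, r125, r126,
    r127]

end Pool.Agent.P.MP_bdc337_an.RR
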