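import Pool.Agent.P.MP_bdc337_an.RR.F
import Pool.Agent.P.MP_bdc337_an.RR.G2
import Pool.Agent.P.MP_bdc337_an.RR.R1
import Pool.Agent.P.MP_bdc337_an.RR.R2
import Pool.Agent.P.MP_bdc337_an.RR.R3
import Pool.Agent.P.MP_bdc337_an.RR.R4
import Pool.Agent.P.MP_bdc337_an.SI.Bridge
import Pool.Agent.P.MP_bdc337_an.LN.Mono

/-! The exact range for every index, with a smaller import closure. -/

set_option autoImplicit false

open Finset PowerSeries

namespace Pool.Agent.P.MP_bdc337_an.RR.Lite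

variable {a : ℝ} {w : ℂ⟦X⟧}

lemma rows {N : ℕ} (h1 : 7 ≤ N) (h2 : N ≤ 127) : rowq N = true := by
  rcases le_or_gt N 70 with c1 | c1
  · exact rows1 h1 c1
  rcases le_or_gt N 94 with c2 | c2
  · exact rows2 c1 c2
  rcases le_or_gt N 112 with c3 | c3
  · exact rows3 c2 c3
  · exact rows4 c3 h2

theorem bound_all (h0 : 0 < a) (hw : Contr w) {F : ℂ⟦X⟧} (hF0 : coeff 0 F = 1)
    (hF : X * d⁄dX ℂ F = (2 * C (a : ℂ) * KK a w) * F) {T : ℕ} (hT : 2 ≤ T)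
    (ha : a ^ 2 = 2 * T / (11 * T + 12)) : ‖coeff (T + 1) (KK a w * F)‖ ≤ 1 := by
  rcases le_or_gt 127 T with c1 | c1
  · exact bound_big h0 hw hF0 hF c1 ha
  rcases le_or_gt 6 T with c2 | c2
  · exact bound_fin h0 hw hF0 hF hT ha (Or.inr (rows (by omega) (by omega)))
  obtain rfl | rfl | rfl | rfl : T = 2 ∨ T = 3 ∨ T = 4 ∨ T = 5 := by omega
  · exact bound_fin h0 hw hF0 hF hT ha (Or.inl rfl)
  · exact bound_four h0 (by rw [ha]; norm_num) hw hF0 hF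
  · exact bound_five h0 (by rw [ha]; norm_num) hw hF0 hF
  · exact bound_six h0 (by rw [ha]; norm_num) hw hF0 hF

theorem ex_end {T : ℕ} (hT : 2 ≤ T) (ha : a ^ 2 = 2 * T / (11 * T + 12)) : LN.Ex (T + 1) a := by
  intro q H G h
  obtain ⟨W, F, hw, hr⟩ := SI.rep_up (f := fun z => z * Complex.exp (G z)) h.a0 h.a1.le h.star
  have k := bound_all h.a0 hw hr.1 hr.2.1 hT ha
  have n0 : (0 : ℝ) < ((T + 1 : ℕ) : ℝ) := by positivity
  have a0 := h.a0
  rw [← LN.coeff_star h (fun _ _ => rfl), hr.coeff (by omega), norm_mul, Complex.norm_real,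
    Real.norm_of_nonneg (by positivity), ← mul_assoc, mul_div_cancel₀ _ n0.ne']
  exact mul_le_of_le_one_right (by positivity) k

/-- the exact range contains `a ^ 2 ≤ 2 (n - 2) / (11 n - 10)` with `n = N + 1` -/
theorem exN {N : ℕ} (hN : 3 ≤ N) (ha : a ^ 2 * (11 * (N + 1) - 10) ≤ 2 * (N - 1)) :
    LN.Ex N a := by
  obtain ⟨T, rfl⟩ : ∃ T, N = T + 1 := ⟨N - 1, by omega⟩
  have t0 : (0 : ℝ) ≤ T := Nat.cast_nonneg T
  have e : √(2 * T / (11 * T + 12) : ℝ) ^ 2 = 2 * T / (11 * T + 12) := Real.sq_sqrt (by positivity)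
  have a2 := half_of_sq e
  refine (ex_end (by omega) e).down (by omega) (Real.le_sqrt_of_sq_le ?_) (by nlinarith)
  rw [le_div_iff₀ (by positivity)]
  push_cast at ha
  linarith

lemma lim (a : ℝ) (h0 : 0 < a) (h1 : a < √(2 / 11)) (e : ℝ) (he : 0 < e) :
    ∃ᶠ N in Filter.atTop, ∀ q H G, UO.Dat a q H G → LN.cN G N ≤ 2 * a + e := by
  have h2 := (Real.lt_sqrt h0.le).1 h1
  obtain ⟨M, hM⟩ := exists_nat_ge ((2 + a ^ 2) / (2 - 11 * a ^ 2))
  refine Filter.Eventually.frequently ?_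
  filter_upwards [Filter.eventually_ge_atTop 3, Filter.eventually_ge_atTop M] with N h3 h4 q H G h
  have h5 : (M : ℝ) ≤ N := by exact_mod_cast h4
  have h6 := (div_le_iff₀ (by linarith)).1 (hM.trans h5)
  linarith [exN h3 (a := a) (by linarith) q H G h]

lemma ex_sqrt {n : ℕ} (hn : 4 ≤ n) : 0 < √(2 * ((n : ℝ) - 2) / (11 * n - 10)) ∧
    √(2 * ((n : ℝ) - 2) / (11 * n - 10)) < 1 ∧
    LN.Ex (n - 1) √(2 * ((n : ℝ) - 2) / (11 * n - 10)) := by
  obtain ⟨T, rfl⟩ : ∃ T, n = T + 2 := ⟨n - 2, by omega⟩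
  have t0 : (2 : ℝ) ≤ T := by exact_mod_cast (by omega : 2 ≤ T)
  have e : 2 * (((T + 2 : ℕ) : ℝ) - 2) / (11 * (T + 2 : ℕ) - 10) = 2 * T / (11 * T + 12) := by
    push_cast
    congr 1 <;> ring
  have p : (0 : ℝ) < 2 * T / (11 * T + 12) := by positivity
  rw [e]
  refine ⟨Real.sqrt_pos.2 p, ?_, ex_end (T := T) (by omega) (Real.sq_sqrt p.le)⟩
  rw [Real.sqrt_lt' one_pos, div_lt_iff₀ (by positivity)]
  linarith

end Pool.Agent.P.MP_bdc337_an.RR.Lite
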