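import Pool.Agent.P.MP_bdc337_an.RR.Chk

/-! Splitting a row of the finite range in two. -/

set_option autoImplicit false

namespace Pool.Agent.P.MP_bdc337_an.RR

lemma row_split (N k : ℕ)
    (h1 : (twoq (rq N) (1 / ((N : ℚ) - 2)) (1 / ((N : ℚ) - 1)) ((sn N 3 : ℚ) / (N * N)) &&
      (List.range k).all fun i => stepq N (i + 3)) = true)
    (h2 : ((List.range (N / 2 - 2 - k)).all fun i => stepq N (i + (k + 3))) = true) :
    rowq N = true := by
  unfold rowq
  rw [Bool.and_eq_true] at h1 ⊢
  refine ⟨h1.1, List.all_eq_true.2 fun i hi => ?_⟩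
  have h3 := List.mem_range.1 hi
  rcases lt_or_ge i k with c | c
  · exact List.all_eq_true.1 h1.2 i (List.mem_range.2 c)
  · have : stepq N (i - k + (k + 3)) = true :=
      List.all_eq_true.1 h2 (i - k) (List.mem_range.2 (by omega))
    rwa [show i - k + (k + 3) = i + 3 by omega] at this

end Pool.Agent.P.MP_bdc337_an.RR
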